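import Mathlib

/-!
# Relative Davenport constants, basic notions and the elementary abelian case
-/

open Finset

namespace RelDav

/-- every family of at least `d` elements has a nonempty zero-sum subfamily -/
def DP (G : Type*) [AddCommGroup G] (d : ℕ) : Prop :=
  ∀ (ι : Type) (s : Finset ι) (f : ι → G), d ≤ s.card →
    ∃ A, A ⊆ s ∧ A.Nonempty ∧ ∑ i ∈ A, f i = 0

/-- every family of at least `d` elements has a nonempty zero-sum subfamily of length at
most `L` -/
def EP (G : Type*) [AddCommGroup G] (d L : ℕ) : Prop :=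
  ∀ (ι : Type) (s : Finset ι) (f : ι → G), d ≤ s.card →
    ∃ A, A ⊆ s ∧ A.Nonempty ∧ A.card ≤ L ∧ ∑ i ∈ A, f i = 0

theorem DP.of_inj {A B : Type*} [AddCommGroup A] [AddCommGroup B] (φ : A →+ B)
    (hφ : Function.Injective φ) {d : ℕ} (h : DP B d) : DP A d := by
  intro ι s f hs
  obtain ⟨A', hA, hne, hsum⟩ := h ι s (fun i => φ (f i)) hs
  refine ⟨A', hA, hne, hφ ?_⟩
  rw [map_sum, hsum, map_zero]

/-- Chevalley and Warning: the Davenport constant of an elementary abelian group. -/
theorem dp_elem (p : ℕ) [Fact p.Prime] (r : ℕ) : DP (Fin r → ZMod p) (r * (p - 1) + 1) := by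
  classical
  intro ι s f hs
  have hp : p.Prime := Fact.out
  have hp1 : 1 ≤ p - 1 := by have := hp.two_le; omega
  let F : Fin r → MvPolynomial s (ZMod p) := fun i =>
    ∑ x : s, MvPolynomial.C (f x i) * MvPolynomial.X x ^ (p - 1)
  have hdeg : ∀ i, (F i).totalDegree ≤ p - 1 := by
    intro i
    refine (MvPolynomial.totalDegree_finsetSum _ _).trans ?_
    refine Finset.sup_le ?_
    intro x _
    refine (MvPolynomial.totalDegree_mul _ _).trans ?_
    rw [MvPolynomial.totalDegree_C, MvPolynomial.totalDegree_X_pow]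
    omega
  have hlt : (∑ i, (F i).totalDegree) < Fintype.card s := by
    calc (∑ i, (F i).totalDegree) ≤ ∑ _i : Fin r, (p - 1) := Finset.sum_le_sum (fun i _ => hdeg i)
      _ = r * (p - 1) := by simp
      _ < s.card := by omega
      _ = Fintype.card s := by simp
  have hdvd : p ∣ Nat.card {x : s → ZMod p // ∀ i, MvPolynomial.eval x (F i) = 0} := by
    rw [Nat.card_eq_fintype_card]
    convert char_dvd_card_solutions_of_fintype_sum_lt p hlt
  have heval : ∀ (x : s → ZMod p) (i : Fin r),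
      MvPolynomial.eval x (F i) = ∑ j : s, f j i * x j ^ (p - 1) := by
    intro x i
    simp only [F, map_sum, map_mul, MvPolynomial.eval_C, map_pow, MvPolynomial.eval_X]
  -- the zero vector is a solution
  have h0 : ∀ i, MvPolynomial.eval (0 : s → ZMod p) (F i) = 0 := by
    intro i
    rw [heval]
    refine Finset.sum_eq_zero ?_
    intro j _
    rw [Pi.zero_apply, zero_pow (by omega), mul_zero]
  have hcard : 1 < Fintype.card {x : s → ZMod p // ∀ i, MvPolynomial.eval x (F i) = 0} := by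
    have hpos : 0 < Nat.card {x : s → ZMod p // ∀ i, MvPolynomial.eval x (F i) = 0} := by
      rw [Nat.card_eq_fintype_card]
      exact Fintype.card_pos_iff.mpr ⟨⟨0, h0⟩⟩
    have := lt_of_lt_of_le hp.one_lt (Nat.le_of_dvd hpos hdvd)
    rwa [Nat.card_eq_fintype_card] at this
  obtain ⟨⟨x, hx⟩, hne⟩ := Fintype.exists_ne_of_one_lt_card hcard ⟨0, h0⟩
  have hx0 : x ≠ 0 := fun h => hne (Subtype.ext h)
  obtain ⟨j0, hj0⟩ := Function.ne_iff.mp hx0
  refine ⟨(Finset.univ.filter (fun j : s => x j ≠ 0)).map (Function.Embedding.subtype _), ?_, ?_, ?_⟩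
  · intro y hy
    rw [Finset.mem_map] at hy
    obtain ⟨j, _, rfl⟩ := hy
    exact j.2
  · refine ⟨j0, ?_⟩
    rw [Finset.mem_map]
    exact ⟨j0, by simpa using hj0, rfl⟩
  · rw [Finset.sum_map]
    funext i
    have h1 := hx i
    rw [heval] at h1
    have h2 : ∀ j : s, f j i * x j ^ (p - 1) = if x j ≠ 0 then f j i else 0 := by
      intro j
      by_cases hj : x j = 0
      · rw [hj, zero_pow (by omega)]; simp
      · rw [ZMod.pow_card_sub_one_eq_one hj]; simp [hj]
    simp only [h2] at h1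
    rw [← Finset.sum_filter] at h1
    rw [Finset.sum_apply]
    simpa using h1

/-- The Davenport constant of `(Z/p)^2`. -/
theorem dp_pp (p : ℕ) [Fact p.Prime] : DP (ZMod p × ZMod p) (2 * p - 1) := by
  have hp : p.Prime := Fact.out
  have h := dp_elem p 2
  have e : 2 * (p - 1) + 1 = 2 * p - 1 := by have := hp.two_le; omega
  rw [e] at h
  let φ : ZMod p × ZMod p →+ (Fin 2 → ZMod p) :=
    { toFun := fun x => ![x.1, x.2]
      map_zero' := by funext i; fin_cases i <;> rfl
      map_add' := by intro x y; funext i; fin_cases i <;> rfl }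
  refine DP.of_inj φ ?_ h
  intro x y hxy
  have h0 := congrFun hxy 0
  have h1 := congrFun hxy 1
  exact Prod.ext h0 h1

/-- Short zero-sum subfamilies in `(Z/p)^2`. -/
theorem ep_pp (p : ℕ) [Fact p.Prime] : EP (ZMod p × ZMod p) (3 * p - 2) p := by
  classical
  have hp : p.Prime := Fact.out
  have hp2 := hp.two_le
  intro ι s f hs
  obtain ⟨s', hs', hcard⟩ := Finset.exists_subset_card_eq hs
  have h := dp_elem p 3
  have e : 3 * (p - 1) + 1 = 3 * p - 2 := by omega
  rw [e] at h
  obtain ⟨A, hA, hne, hsum⟩ := h ι s' (fun i => ![(f i).1, (f i).2, 1]) hcard.ge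
  have hA0 : ∑ i ∈ A, f i = 0 := by
    have h0 := congrFun hsum 0
    have h1 := congrFun hsum 1
    simp only [Finset.sum_apply] at h0 h1
    refine Prod.ext ?_ ?_
    · rw [Prod.fst_sum]; simpa using h0
    · rw [Prod.snd_sum]; simpa using h1
  have hAp : p ∣ A.card := by
    have h2 := congrFun hsum 2
    simp only [Finset.sum_apply] at h2
    rw [← ZMod.natCast_eq_zero_iff]
    simpa using h2
  have hAle : A.card ≤ 3 * p - 2 := hcard ▸ Finset.card_le_card hA
  obtain ⟨c, hc⟩ := hAp
  have hc1 : 0 < c := by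
    rcases Nat.eq_zero_or_pos c with h0 | h0
    · rw [h0, mul_zero] at hc
      exact absurd (Finset.card_eq_zero.mp hc) hne.ne_empty
    · exact h0
  have hc3 : c < 3 := by
    by_contra hcon
    have : p * 3 ≤ p * c := Nat.mul_le_mul_left p (by omega)
    omega
  by_cases hc' : c = 1
  · refine ⟨A, hA.trans hs', hne, ?_, hA0⟩
    rw [hc, hc', mul_one]
  · have hc2 : c = 2 := by omega
    obtain ⟨j0, hj0⟩ := hne
    have hcA : (A.erase j0).card = 2 * p - 1 := by
      rw [Finset.card_erase_of_mem hj0, hc, hc2]; omega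
    obtain ⟨B, hB, hBne, hBsum⟩ := dp_pp p ι (A.erase j0) f hcA.ge
    have hBA : B ⊆ A := hB.trans (Finset.erase_subset _ _)
    have hsd : ∑ i ∈ A \ B, f i = 0 := by
      have := Finset.sum_sdiff (f := f) hBA
      rw [hBsum, add_zero, hA0] at this
      exact this
    have hcsd : (A \ B).card + B.card = A.card := Finset.card_sdiff_add_card_eq_card hBA
    by_cases hle : B.card ≤ p
    · exact ⟨B, hBA.trans (hA.trans hs'), hBne, hle, hBsum⟩
    · refine ⟨A \ B, (Finset.sdiff_subset.trans hA).trans hs', ⟨j0, ?_⟩, ?_, hsd⟩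
      · rw [Finset.mem_sdiff]
        exact ⟨hj0, fun h => (Finset.notMem_erase j0 A) (hB h)⟩
      · rw [hc, hc2] at hcsd; omega

/-- Extraction of disjoint short blocks with sum in the kernel. -/
theorem extract {A G : Type*} [AddCommGroup A] [AddCommGroup G] (φ : G →+ A) {e L : ℕ}
    (h : EP A e L) {ι : Type} (f : ι → G) : ∀ (k : ℕ) (s : Finset ι),
    (k = 0 ∨ (k - 1) * L + e ≤ s.card) →
    ∃ B : Finset (Finset ι), B.card = k ∧
      (∀ b ∈ B, b ⊆ s ∧ b.Nonempty ∧ b.card ≤ L ∧ φ (∑ i ∈ b, f i) = 0) ∧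
      (B : Set (Finset ι)).PairwiseDisjoint id := by
  classical
  intro k
  induction k with
  | zero =>
    intro s _
    exact ⟨∅, rfl, by simp, by simp⟩
  | succ k ih =>
    intro s hs
    have hs' : k * L + e ≤ s.card := by
      rcases hs with h0 | h0
      · omega
      · simpa using h0
    obtain ⟨b, hb, hbne, hbL, hbsum⟩ := h ι s (fun i => φ (f i)) (by
      have : 0 ≤ k * L := Nat.zero_le _
      omega)
    have hcard : (s \ b).card + b.card = s.card := Finset.card_sdiff_add_card_eq_card hb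
    obtain ⟨B, hBc, hB, hBd⟩ := ih (s \ b) (by
      rcases Nat.eq_zero_or_pos k with h0 | h0
      · exact Or.inl h0
      · refine Or.inr ?_
        have h1 : k * L = (k - 1) * L + L := by
          conv_lhs => rw [show k = (k - 1) + 1 by omega]
          ring
        omega)
    have hnot : b ∉ B := by
      intro hbB
      obtain ⟨x, hx⟩ := hbne
      have := (hB b hbB).1 hx
      rw [Finset.mem_sdiff] at this
      exact this.2 hx
    refine ⟨insert b B, ?_, ?_, ?_⟩
    · rw [Finset.card_insert_of_notMem hnot, hBc]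
    · intro c hc
      rw [Finset.mem_insert] at hc
      rcases hc with rfl | hc
      · refine ⟨hb, hbne, hbL, ?_⟩
        rw [map_sum]; exact hbsum
      · obtain ⟨h1, h2, h3, h4⟩ := hB c hc
        exact ⟨h1.trans Finset.sdiff_subset, h2, h3, h4⟩
    · rw [Finset.coe_insert]
      refine (Set.pairwiseDisjoint_insert_of_notMem (by simpa using hnot)).mpr ⟨hBd, ?_⟩
      intro c hc
      have h1 := (hB c hc).1
      exact (Finset.disjoint_of_subset_left h1 Finset.sdiff_disjoint).symm

/-- Zero-sum free families: the union of blocks whose sums are dependent in the kernel. -/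
theorem combine {A G K : Type*} [AddCommGroup A] [AddCommGroup G] [AddCommGroup K]
    (φ : G →+ A) (μ : K →+ G) (hμ : ∀ x, φ x = 0 → ∃ y, μ y = x) {ι : Type} (f : ι → G)
    (s : Finset ι) {d M L : ℕ} (hK : EP K d M) (B : Finset (Finset ι)) (hBc : d ≤ B.card)
    (hB : ∀ b ∈ B, b ⊆ s ∧ b.Nonempty ∧ b.card ≤ L ∧ φ (∑ i ∈ b, f i) = 0)
    (hBd : (B : Set (Finset ι)).PairwiseDisjoint id) :
    ∃ C, C ⊆ s ∧ C.Nonempty ∧ C.card ≤ M * L ∧ ∑ i ∈ C, f i = 0 := by
  classical
  choose! y hy using fun (b : Finset ι) (hb : φ (∑ i ∈ b, f i) = 0) => hμ _ hb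
  obtain ⟨C, hC, hCne, hCc, hCsum⟩ := hK (Finset ι) B y hBc
  refine ⟨C.biUnion id, ?_, ?_, ?_, ?_⟩
  · intro x hx
    rw [Finset.mem_biUnion] at hx
    obtain ⟨b, hb, hxb⟩ := hx
    exact (hB b (hC hb)).1 hxb
  · obtain ⟨b, hb⟩ := hCne
    obtain ⟨x, hx⟩ := (hB b (hC hb)).2.1
    exact ⟨x, Finset.mem_biUnion.mpr ⟨b, hb, hx⟩⟩
  · calc (C.biUnion id).card ≤ ∑ b ∈ C, (id b).card := Finset.card_biUnion_le
      _ ≤ ∑ _b ∈ C, L := Finset.sum_le_sum (fun b hb => (hB b (hC hb)).2.2.1)
      _ = C.card * L := by simp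
      _ ≤ M * L := Nat.mul_le_mul_right L hCc
  · rw [Finset.sum_biUnion (fun a ha b hb hab => hBd (hC ha) (hC hb) hab)]
    have : ∑ b ∈ C, ∑ i ∈ id b, f i = μ (∑ b ∈ C, y b) := by
      rw [map_sum]
      refine Finset.sum_congr rfl ?_
      intro b hb
      rw [hy b (hB b (hC hb)).2.2.2]
      rfl
    rw [this, hCsum, map_zero]

end RelDav
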