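import Mathlib
import Pool.Agent.Helper4.RD.Base

/-!
# Davenport constant and short zero-sums for groups of rank at most two
-/

open Finset

namespace RelDav

theorem DP.ep {G : Type*} [AddCommGroup G] {d : ℕ} (h : DP G d) : EP G d d := by
  intro ι s f hs
  obtain ⟨s', hs', hcard⟩ := Finset.exists_subset_card_eq hs
  obtain ⟨A, hA, hne, hsum⟩ := h ι s' f hcard.ge
  exact ⟨A, hA.trans hs', hne, hcard ▸ Finset.card_le_card hA, hsum⟩

theorem EP.mono {G : Type*} [AddCommGroup G] {d d' L L' : ℕ} (h : EP G d L) (hd : d ≤ d')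
    (hL : L ≤ L') : EP G d' L' := by
  intro ι s f hs
  obtain ⟨A, hA, hne, hc, hsum⟩ := h ι s f (hd.trans hs)
  exact ⟨A, hA, hne, hc.trans hL, hsum⟩

theorem EP.dp {G : Type*} [AddCommGroup G] {d L : ℕ} (h : EP G d L) : DP G d := by
  intro ι s f hs
  obtain ⟨A, hA, hne, _, hsum⟩ := h ι s f hs
  exact ⟨A, hA, hne, hsum⟩

/-- multiplication by `N` from `ZMod a` to `ZMod (N * a)` -/
def mulHom (N a : ℕ) : ZMod a →+ ZMod (N * a) :=
  ZMod.lift a ⟨zmultiplesHom (ZMod (N * a)) (N : ZMod (N * a)), by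
    rw [zmultiplesHom_apply]
    have : ((N * a : ℕ) : ZMod (N * a)) = 0 := ZMod.natCast_self _
    rw [Nat.cast_mul] at this
    rw [zsmul_eq_mul, Int.cast_natCast]
    exact (mul_comm _ _).trans this⟩

theorem mulHom_natCast (N a t : ℕ) : mulHom N a (t : ZMod a) = (N : ZMod (N * a)) * t := by
  unfold mulHom
  rw [← Int.cast_natCast (R := ZMod a) t, ZMod.lift_coe]
  change (zmultiplesHom (ZMod (N * a))) (N : ZMod (N * a)) (t : ℤ) = _
  rw [zmultiplesHom_apply, zsmul_eq_mul, Int.cast_natCast]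
  exact mul_comm _ _

theorem mulHom_range {N a : ℕ} (h : N * a ≠ 0) (x : ZMod (N * a))
    (hx : ZMod.castHom (Dvd.intro a rfl) (ZMod N) x = 0) : ∃ y, mulHom N a y = x := by
  have : NeZero (N * a) := ⟨h⟩
  have h1 : ((x.val : ℕ) : ZMod N) = 0 := by
    rw [← hx, ZMod.castHom_apply, ZMod.natCast_val]
  rw [ZMod.natCast_eq_zero_iff] at h1
  obtain ⟨t, ht⟩ := h1
  refine ⟨(t : ZMod a), ?_⟩
  rw [mulHom_natCast, ← Nat.cast_mul, ← ht, ZMod.natCast_val, ZMod.cast_id]

/-- reduction on both factors -/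
def redHom (N₁ a N₂ b : ℕ) : ZMod (N₁ * a) × ZMod (N₂ * b) →+ ZMod N₁ × ZMod N₂ :=
  AddMonoidHom.prodMap (ZMod.castHom (Dvd.intro a rfl) (ZMod N₁)).toAddMonoidHom
    (ZMod.castHom (Dvd.intro b rfl) (ZMod N₂)).toAddMonoidHom

theorem redHom_apply (N₁ a N₂ b : ℕ) (x : ZMod (N₁ * a) × ZMod (N₂ * b)) :
    redHom N₁ a N₂ b x = (ZMod.castHom (Dvd.intro a rfl) (ZMod N₁) x.1,
      ZMod.castHom (Dvd.intro b rfl) (ZMod N₂) x.2) := rfl

/-- multiplication on both factors -/
def kerHom (N₁ a N₂ b : ℕ) : ZMod a × ZMod b →+ ZMod (N₁ * a) × ZMod (N₂ * b) :=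
  AddMonoidHom.prodMap (mulHom N₁ a) (mulHom N₂ b)

theorem kerHom_range {N₁ a N₂ b : ℕ} (h₁ : N₁ * a ≠ 0) (h₂ : N₂ * b ≠ 0)
    (x : ZMod (N₁ * a) × ZMod (N₂ * b)) (hx : redHom N₁ a N₂ b x = 0) :
    ∃ y, kerHom N₁ a N₂ b y = x := by
  rw [redHom_apply, Prod.mk_eq_zero] at hx
  obtain ⟨y₁, hy₁⟩ := mulHom_range h₁ x.1 hx.1
  obtain ⟨y₂, hy₂⟩ := mulHom_range h₂ x.2 hx.2
  exact ⟨(y₁, y₂), Prod.ext hy₁ hy₂⟩

/-- A finite group of order `N`: every family of `N` elements has a nonempty zero-sum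
subfamily. -/
theorem ep_finite (G : Type*) [AddCommGroup G] [Fintype G] :
    EP G (Fintype.card G) (Fintype.card G) := by
  classical
  refine DP.ep ?_
  intro ι s f hs
  obtain ⟨s', hs', hcard⟩ := Finset.exists_subset_card_eq hs
  -- enumerate
  let e := s'.equivFin
  let g : ℕ → G := fun k => if h : k < s'.card then f (e.symm ⟨k, h⟩) else 0
  let P : ℕ → G := fun k => ∑ i ∈ Finset.range k, g i
  have hex : ∃ a ∈ Finset.range (s'.card + 1), ∃ b ∈ Finset.range (s'.card + 1), a ≠ b ∧ P a = P b :=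
    Finset.exists_ne_map_eq_of_card_lt_of_maps_to (t := (Finset.univ : Finset G))
      (by rw [Finset.card_range, hcard, Finset.card_univ]; omega) (fun _ _ => Finset.mem_coe.2 (Finset.mem_univ _))
  obtain ⟨a, ha, b, hb, hab, hP⟩ := hex
  wlog hlt : a < b generalizing a b
  · exact this b hb a ha (Ne.symm hab) hP.symm (by omega)
  rw [Finset.mem_range] at ha hb
  have hsum : ∑ i ∈ Finset.Ico a b, g i = 0 := by
    rw [Finset.sum_Ico_eq_sub _ hlt.le]
    exact sub_eq_zero.mpr hP.symm
  let J : Finset (Fin s'.card) := Finset.univ.filter (fun k => a ≤ k.1 ∧ k.1 < b)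
  refine ⟨J.image (fun k => (e.symm k : ι)), ?_, ?_, ?_⟩
  · intro x hx
    rw [Finset.mem_image] at hx
    obtain ⟨k, _, rfl⟩ := hx
    exact hs' (e.symm k).2
  · refine ⟨(e.symm ⟨a, by omega⟩ : ι), Finset.mem_image.mpr ⟨⟨a, by omega⟩, ?_, rfl⟩⟩
    simp [J, hlt]
  · rw [Finset.sum_image (by
      intro x _ y _ hxy
      exact e.symm.injective (Subtype.ext hxy))]
    rw [← hsum]
    symm
    refine Finset.sum_bij' (fun k hk => (⟨k, by rw [Finset.mem_Ico] at hk; omega⟩ : Fin s'.card))
      (fun k _ => k.1) ?_ ?_ ?_ ?_ ?_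
    · intro k hk
      rw [Finset.mem_Ico] at hk
      simp [J, hk]
    · intro k hk
      simp only [J, Finset.mem_filter, Finset.mem_univ, true_and] at hk
      rw [Finset.mem_Ico]; exact hk
    · intro k hk; rfl
    · intro k hk; rfl
    · intro k hk
      rw [Finset.mem_Ico] at hk
      have : k < s'.card := by omega
      simp only [g, this, dif_pos]

/-- one more block from the remainder -/
theorem extract_succ {A G : Type*} [AddCommGroup A] [AddCommGroup G] (φ : G →+ A) {e L D : ℕ}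
    (h : EP A e L) (hD : DP A D) {ι : Type} (f : ι → G) (k : ℕ) (s : Finset ι)
    (hk : k = 0 ∨ (k - 1) * L + e ≤ s.card) (hk2 : k * L + D ≤ s.card) :
    ∃ B : Finset (Finset ι), B.card = k + 1 ∧
      (∀ b ∈ B, b ⊆ s ∧ b.Nonempty ∧ φ (∑ i ∈ b, f i) = 0) ∧
      (B : Set (Finset ι)).PairwiseDisjoint id := by
  classical
  obtain ⟨B, hBc, hB, hBd⟩ := extract φ h f k s hk
  have hUc : (B.biUnion id).card ≤ k * L := by
    calc (B.biUnion id).card ≤ ∑ b ∈ B, (id b).card := Finset.card_biUnion_le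
      _ ≤ ∑ _b ∈ B, L := Finset.sum_le_sum (fun b hb => (hB b hb).2.2.1)
      _ = k * L := by simp [hBc]
  have hUs : B.biUnion id ⊆ s := by
    intro x hx
    rw [Finset.mem_biUnion] at hx
    obtain ⟨b, hb, hxb⟩ := hx
    exact (hB b hb).1 hxb
  have hcard : (s \ B.biUnion id).card + (B.biUnion id).card = s.card :=
    Finset.card_sdiff_add_card_eq_card hUs
  obtain ⟨c, hc, hcne, hcsum⟩ := hD ι (s \ B.biUnion id) (fun i => φ (f i)) (by omega)
  have hdis : ∀ b ∈ B, Disjoint c b := by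
    intro b hb
    refine Finset.disjoint_of_subset_left hc ?_
    refine Finset.disjoint_of_subset_right ?_ Finset.sdiff_disjoint
    intro x hx
    exact Finset.mem_biUnion.mpr ⟨b, hb, hx⟩
  have hnot : c ∉ B := by
    intro hcB
    have := hdis c hcB
    rw [disjoint_self] at this
    exact hcne.ne_empty this
  refine ⟨insert c B, ?_, ?_, ?_⟩
  · rw [Finset.card_insert_of_notMem hnot, hBc]
  · intro b hb
    rw [Finset.mem_insert] at hb
    rcases hb with rfl | hb
    · refine ⟨hc.trans Finset.sdiff_subset, hcne, ?_⟩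
      rw [map_sum]; exact hcsum
    · obtain ⟨h1, h2, _, h4⟩ := hB b hb
      exact ⟨h1, h2, h4⟩
  · rw [Finset.coe_insert]
    exact (Set.pairwiseDisjoint_insert_of_notMem (by simpa using hnot)).mpr ⟨hBd, hdis⟩

/-- combining blocks, Davenport constant version -/
theorem combine_dp {A G K : Type*} [AddCommGroup A] [AddCommGroup G] [AddCommGroup K]
    (φ : G →+ A) (μ : K →+ G) (hμ : ∀ x, φ x = 0 → ∃ y, μ y = x) {ι : Type} (f : ι → G)
    (s : Finset ι) {d : ℕ} (hK : DP K d) (B : Finset (Finset ι)) (hBc : d ≤ B.card)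
    (hB : ∀ b ∈ B, b ⊆ s ∧ b.Nonempty ∧ φ (∑ i ∈ b, f i) = 0)
    (hBd : (B : Set (Finset ι)).PairwiseDisjoint id) :
    ∃ C, C ⊆ s ∧ C.Nonempty ∧ ∑ i ∈ C, f i = 0 := by
  obtain ⟨C, h1, h2, _, h3⟩ := combine φ μ hμ f s (L := s.card) hK.ep B hBc
    (fun b hb => ⟨(hB b hb).1, (hB b hb).2.1, Finset.card_le_card (hB b hb).1, (hB b hb).2.2⟩) hBd
  exact ⟨C, h1, h2, h3⟩

/-- The Davenport constant `m + n - 1` and the constant `η ≤ 2m + n - 2` of `Z/m × Z/n`,
`m ∣ n`. -/
theorem rank_two : ∀ (m n : ℕ), 0 < n → m ∣ n →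
    DP (ZMod m × ZMod n) (m + n - 1) ∧ EP (ZMod m × ZMod n) (2 * m + n - 2) n := by
  intro m
  induction m using Nat.strong_induction_on with
  | _ m ih =>
    intro n hn hmn
    have hm : 0 < m := Nat.pos_of_dvd_of_pos hmn hn
    rcases Nat.lt_or_ge 1 m with h1 | h1
    · -- inductive step
      obtain ⟨p, hp, hpm⟩ := Nat.exists_prime_and_dvd (Nat.ne_of_gt h1)
      have : Fact p.Prime := ⟨hp⟩
      obtain ⟨m', rfl⟩ := hpm
      obtain ⟨n', hn'⟩ := (Dvd.intro _ rfl : p ∣ p * m').trans hmn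
      subst hn'
      have hp2 := hp.two_le
      have hm' : 0 < m' := Nat.pos_of_mul_pos_left hm
      have hn'0 : 0 < n' := Nat.pos_of_mul_pos_left hn
      have hlt : m' < p * m' := by nlinarith
      have hdvd : m' ∣ n' := Nat.dvd_of_mul_dvd_mul_left hp.pos hmn
      obtain ⟨ihD, ihE⟩ := ih m' hlt n' hn'0 hdvd
      have hker := kerHom_range (N₁ := p) (a := m') (N₂ := p) (b := n') (by positivity) (by positivity)
      obtain ⟨a, rfl⟩ : ∃ a, m' = a + 1 := ⟨m' - 1, by omega⟩
      obtain ⟨b, rfl⟩ : ∃ b, n' = b + 1 := ⟨n' - 1, by omega⟩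
      constructor
      · intro ι s f hs
        have hs' : p * a + p * b + 2 * p - 1 ≤ s.card := by
          have e : p * (a + 1) + p * (b + 1) - 1 = p * a + p * b + 2 * p - 1 := by
            have e1 := mul_add p a 1
            have e2 := mul_add p b 1
            omega
          omega
        obtain ⟨B, hBc, hB, hBd⟩ := extract_succ (redHom p (a + 1) p (b + 1)) (ep_pp p) (dp_pp p) f
          (a + b) s (by
            rcases Nat.eq_zero_or_pos (a + b) with h0 | h0
            · exact Or.inl h0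
            · refine Or.inr ?_
              have e : (a + b) * p = (a + b - 1) * p + p := by
                conv_lhs => rw [show a + b = (a + b - 1) + 1 by omega]
                ring
              have e2 : (a + b) * p = p * a + p * b := by ring
              omega) (by
            have e2 : (a + b) * p = p * a + p * b := by ring
            omega)
        exact combine_dp (redHom p (a + 1) p (b + 1)) (kerHom p (a + 1) p (b + 1)) hker f s ihD B
          (by omega) hB hBd
      · intro ι s f hs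
        have hs' : 2 * (p * a) + p * b + 3 * p - 2 ≤ s.card := by
          have e : 2 * (p * (a + 1)) + p * (b + 1) - 2 = 2 * (p * a) + p * b + 3 * p - 2 := by
            have e1 := mul_add p a 1
            have e2 := mul_add p b 1
            omega
          omega
        obtain ⟨B, hBc, hB, hBd⟩ := extract (redHom p (a + 1) p (b + 1)) (ep_pp p) f
          (2 * a + b + 1) s (Or.inr (by
              have e : (2 * a + b + 1 - 1) * p = 2 * (p * a) + p * b := by
                rw [Nat.add_sub_cancel]; ring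
              omega))
        obtain ⟨C, h1, h2, h3, h4⟩ := combine (redHom p (a + 1) p (b + 1))
          (kerHom p (a + 1) p (b + 1)) hker f s ihE B (by omega) hB hBd
        exact ⟨C, h1, h2, by rw [mul_comm p]; exact h3, h4⟩
    · -- base
      have hm1 : m = 1 := by omega
      subst hm1
      have : NeZero n := ⟨by omega⟩
      have hE := ep_finite (ZMod 1 × ZMod n)
      have hc : Fintype.card (ZMod 1 × ZMod n) = n := by
        rw [Fintype.card_prod, ZMod.card, ZMod.card, one_mul]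
      rw [hc] at hE
      refine ⟨?_, ?_⟩
      · have : 1 + n - 1 = n := by omega
        rw [this]; exact hE.dp
      · have : 2 * 1 + n - 2 = n := by omega
        rw [this]; exact hE

end RelDav
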