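import Mathlib
import Pool.Agent.Helper4.RD.Rank2

/-!
# Upper bounds for zero-sum free sequences with prescribed sum
-/

open Finset

namespace RelDav

/-- no nonempty submultiset has sum zero -/
def ZSF {G : Type*} [AddCommGroup G] (T : Multiset G) : Prop :=
  ∀ U ≤ T, U ≠ 0 → U.sum ≠ 0

/-- a multiset as a family -/
theorem exists_family {G : Type*} (T : Multiset G) :
    ∃ f : Fin (Multiset.card T) → G, Multiset.map f Finset.univ.val = T := by
  induction T using Quotient.inductionOn with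
  | _ l =>
    refine ⟨fun i => l.get (i.cast (by simp)), ?_⟩
    have h1 : (Multiset.card (Quotient.mk _ l : Multiset G)) = l.length := by simp
    rw [Fin.univ_val_map]
    apply congrArg
    refine List.ext_get (by simp) ?_
    intro n h1 h2
    simp

/-- zero-sum free families with sum in the kernel of a reduction -/
theorem card_lt_of_family {A G K : Type*} [AddCommGroup A] [AddCommGroup G] [AddCommGroup K]
    (φ : G →+ A) (μ : K →+ G) (hμ : ∀ x, φ x = 0 → ∃ y, μ y = x) {e L D k : ℕ}
    (hE : EP A e L) (hD : DP A D) (hK : DP K (k + 2)) {ι : Type} (f : ι → G) (s : Finset ι)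
    (hk : k = 0 ∨ (k - 1) * L + e ≤ s.card) (hk2 : k * L + D + 1 ≤ s.card)
    (hsum : φ (∑ i ∈ s, f i) = 0) : ∃ C, C ⊆ s ∧ C.Nonempty ∧ ∑ i ∈ C, f i = 0 := by
  classical
  obtain ⟨B, hBc, hB, hBd⟩ := extract φ hE f k s hk
  have hUc : (B.biUnion id).card ≤ k * L := by
    calc (B.biUnion id).card ≤ ∑ b ∈ B, (id b).card := Finset.card_biUnion_le
      _ ≤ ∑ _b ∈ B, L := Finset.sum_le_sum (fun b hb => (hB b hb).2.2.1)
      _ = k * L := by simp [hBc]
  have hUs : B.biUnion id ⊆ s := by
    intro x hx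
    rw [Finset.mem_biUnion] at hx
    obtain ⟨b, hb, hxb⟩ := hx
    exact (hB b hb).1 hxb
  have hcard : (s \ B.biUnion id).card + (B.biUnion id).card = s.card :=
    Finset.card_sdiff_add_card_eq_card hUs
  have hRne : (s \ B.biUnion id).Nonempty := by
    rw [← Finset.card_pos]; omega
  have hU0 : φ (∑ i ∈ B.biUnion id, f i) = 0 := by
    rw [Finset.sum_biUnion (fun a ha b hb hab => hBd ha hb hab), map_sum]
    exact Finset.sum_eq_zero (fun b hb => (hB b hb).2.2.2)
  have hR0 : φ (∑ i ∈ s \ B.biUnion id, f i) = 0 := by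
    have := Finset.sum_sdiff (f := f) hUs
    rw [← this, map_add, hU0, add_zero] at hsum
    exact hsum
  obtain ⟨j, hj⟩ := hRne
  obtain ⟨c, hc, hcne, hcsum⟩ := hD ι ((s \ B.biUnion id).erase j) (fun i => φ (f i)) (by
    rw [Finset.card_erase_of_mem hj]; omega)
  have hcR : c ⊆ s \ B.biUnion id := hc.trans (Finset.erase_subset _ _)
  have hc0 : φ (∑ i ∈ c, f i) = 0 := by rw [map_sum]; exact hcsum
  have hd0 : φ (∑ i ∈ (s \ B.biUnion id) \ c, f i) = 0 := by
    have := Finset.sum_sdiff (f := f) hcR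
    rw [← this, map_add, hc0, add_zero] at hR0
    exact hR0
  have hdne : ((s \ B.biUnion id) \ c).Nonempty := by
    refine ⟨j, ?_⟩
    rw [Finset.mem_sdiff]
    exact ⟨hj, fun h => Finset.notMem_erase j _ (hc h)⟩
  have hdis : ∀ b ∈ B, Disjoint (s \ B.biUnion id) b := by
    intro b hb
    refine Finset.disjoint_of_subset_right ?_ Finset.sdiff_disjoint
    intro x hx
    exact Finset.mem_biUnion.mpr ⟨b, hb, hx⟩
  have hdisc : ∀ b ∈ B, Disjoint c b := fun b hb => Finset.disjoint_of_subset_left hcR (hdis b hb)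
  have hdisd : ∀ b ∈ B, Disjoint ((s \ B.biUnion id) \ c) b := fun b hb =>
    Finset.disjoint_of_subset_left Finset.sdiff_subset (hdis b hb)
  have hcd : Disjoint ((s \ B.biUnion id) \ c) c := Finset.sdiff_disjoint
  have hnot : c ∉ B := by
    intro hcB
    have := hdisc c hcB
    rw [disjoint_self] at this
    exact hcne.ne_empty this
  have hnot2 : ((s \ B.biUnion id) \ c) ∉ insert c B := by
    intro hcB
    rw [Finset.mem_insert] at hcB
    rcases hcB with h | h
    · rw [h, disjoint_self] at hcd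
      exact hcne.ne_empty hcd
    · have := hdisd _ h
      rw [disjoint_self] at this
      exact hdne.ne_empty this
  refine combine_dp φ μ hμ f s hK (insert ((s \ B.biUnion id) \ c) (insert c B)) ?_ ?_ ?_
  · rw [Finset.card_insert_of_notMem hnot2, Finset.card_insert_of_notMem hnot, hBc]
  · intro b hb
    rw [Finset.mem_insert, Finset.mem_insert] at hb
    rcases hb with rfl | rfl | hb
    · exact ⟨Finset.sdiff_subset.trans Finset.sdiff_subset, hdne, hd0⟩
    · exact ⟨hcR.trans Finset.sdiff_subset, hcne, hc0⟩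
    · obtain ⟨h1, h2, _, h4⟩ := hB b hb
      exact ⟨h1, h2, h4⟩
  · rw [Finset.coe_insert]
    refine (Set.pairwiseDisjoint_insert_of_notMem (by simpa using hnot2)).mpr ⟨?_, ?_⟩
    · rw [Finset.coe_insert]
      exact (Set.pairwiseDisjoint_insert_of_notMem (by simpa using hnot)).mpr ⟨hBd, hdisc⟩
    · intro b hb
      rw [Finset.mem_coe, Finset.mem_insert] at hb
      rcases hb with rfl | hb
      · exact hcd
      · exact hdisd b hb

/-- a family inside a zero-sum free multiset is zero-sum free -/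
theorem ZSF.family {G : Type*} [AddCommGroup G] {T : Multiset G} (hT : ZSF T)
    (f : Fin (Multiset.card T) → G) (hf : Multiset.map f Finset.univ.val = T) :
    ¬ ∃ C : Finset (Fin (Multiset.card T)), C ⊆ Finset.univ ∧ C.Nonempty ∧ ∑ i ∈ C, f i = 0 := by
  rintro ⟨C, hC, hne, hsum⟩
  refine hT (Multiset.map f C.val) ?_ ?_ ?_
  · exact (Multiset.map_le_map (Finset.val_le_iff.mpr hC)).trans (le_of_eq hf)
  · intro h
    rw [Multiset.map_eq_zero] at h
    exact hne.ne_empty (Finset.val_eq_zero.mp h)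
  · exact hsum

/-- The upper bound: `m = N₁ a`, `n = N₂ b`, the sum of `T` vanishes modulo `(N₁, N₂)`. -/
theorem upper {N₁ a N₂ b : ℕ} (h₂ : 0 < N₂ * b) (hN : N₁ ∣ N₂) (hab : a ∣ b)
    (T : Multiset (ZMod (N₁ * a) × ZMod (N₂ * b))) (hT : ZSF T) (h0 : T.sum ≠ 0)
    (hsum : redHom N₁ a N₂ b T.sum = 0) :
    Multiset.card T + 1 ≤ (a + b - 2) * N₂ + N₁ := by
  have hN2 : 0 < N₂ := Nat.pos_of_mul_pos_right h₂
  have hb : 0 < b := Nat.pos_of_mul_pos_left h₂
  have hN1 : 0 < N₁ := Nat.pos_of_dvd_of_pos hN hN2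
  have ha : 0 < a := Nat.pos_of_dvd_of_pos hab hb
  have hN12 : N₁ ≤ N₂ := Nat.le_of_dvd hN2 hN
  have hker := kerHom_range (N₁ := N₁) (a := a) (N₂ := N₂) (b := b) (by positivity) (by positivity)
  have hab3 : 3 ≤ a + b := by
    by_contra hcon
    have ha1 : a = 1 := by omega
    have hb1 : b = 1 := by omega
    subst ha1; subst hb1
    obtain ⟨y, hy⟩ := hker _ hsum
    have : y = 0 := Subsingleton.elim _ _
    rw [this, map_zero] at hy
    exact h0 hy.symm
  obtain ⟨f, hf⟩ := exists_family T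
  by_contra hcon
  obtain ⟨hDA, hEA⟩ := rank_two N₁ N₂ hN2 hN
  obtain ⟨hDK, _⟩ := rank_two a b hb hab
  obtain ⟨k, hk⟩ : ∃ k, a + b = k + 3 := ⟨a + b - 3, by omega⟩
  have hKd : DP (ZMod a × ZMod b) (k + 2) := by
    have : a + b - 1 = k + 2 := by omega
    rw [this] at hDK; exact hDK
  have e1 : (a + b - 2) * N₂ = k * N₂ + N₂ := by
    have : a + b - 2 = k + 1 := by omega
    rw [this]; ring
  rw [e1] at hcon
  have hc : (Finset.univ : Finset (Fin (Multiset.card T))).card = Multiset.card T := by simp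
  refine hT.family f hf (card_lt_of_family (redHom N₁ a N₂ b) (kerHom N₁ a N₂ b) hker hEA hDA hKd f
    Finset.univ ?_ ?_ ?_)
  · rcases Nat.eq_zero_or_pos k with h0 | h0
    · exact Or.inl h0
    · refine Or.inr ?_
      have e : k * N₂ = (k - 1) * N₂ + N₂ := by
        conv_lhs => rw [show k = (k - 1) + 1 by omega]
        ring
      rw [hc]; omega
  · rw [hc]; omega
  · have : ∑ i, f i = T.sum := by
      conv_rhs => rw [← hf]
      rfl
    rw [this]; exact hsum

end RelDav
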