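import Mathlib
import Pool.Agent.Helper4.RD.Upper

/-!
# Construction of zero-sum free sequences with prescribed sum
-/

open Finset

namespace RelDav

theorem gcd_val_of_unit_mul {k : ℕ} (hk : 0 < k) (x w : ZMod k) (d : ℕ) (hd : d ∣ k)
    (hw : IsUnit w) (hx : x = w * d) : Nat.gcd x.val k = d := by
  have : NeZero k := ⟨hk.ne'⟩
  have h1 : ((x.val : ℕ) : ZMod k) = ((w.val * d : ℕ) : ZMod k) := by
    rw [ZMod.natCast_zmod_val, Nat.cast_mul, ZMod.natCast_zmod_val, hx]
  have h2 : x.val ≡ w.val * d [MOD k] := (ZMod.natCast_eq_natCast_iff _ _ _).mp h1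
  have h3 : Nat.gcd x.val k = Nat.gcd (w.val * d) k := h2.gcd_eq
  have h4 : Nat.Coprime w.val k := by
    obtain ⟨w', rfl⟩ := hw
    exact ZMod.val_coe_unit_coprime w'
  rw [h3, Nat.Coprime.gcd_mul_left_cancel _ h4, Nat.gcd_eq_left hd]

theorem lower_lemma {G : Type*} [AddCommGroup G] {k s : ℕ} (hk : 0 < k) (π : G →+ ZMod k) (f : G)
    (hf : ∀ j, 0 < j → j < s → j • f ≠ 0) (hπf : π f = 0)
    (hsurj : ∀ u : ZMod k, ∃ r, π r = u) (g : G) (hg : π g ≠ 0) :
    ∃ T : Multiset G, ZSF T ∧ T.sum = g ∧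
      Multiset.card T = (s - 1) + (k - Nat.gcd (π g).val k) := by
  classical
  have : NeZero k := ⟨hk.ne'⟩
  obtain ⟨d, hd, w, hw, hx⟩ := (π g).eq_unit_mul_divisor
  have hgcd := gcd_val_of_unit_mul hk (π g) w d hd hw hx
  rw [hgcd]
  have hdk : d < k := by
    rcases lt_or_eq_of_le (Nat.le_of_dvd hk hd) with h | h
    · exact h
    · exfalso
      apply hg
      rw [hx, h, ZMod.natCast_self, mul_zero]
  obtain ⟨r, hr⟩ := hsurj (-w)
  have hℓ : ((k - d : ℕ) : ZMod k) * (-w) = π g := by
    rw [Nat.cast_sub hdk.le, ZMod.natCast_self, hx]; ring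
  obtain ⟨l, hl⟩ : ∃ l, k - d = l + 1 := ⟨k - d - 1, by omega⟩
  have hπr1 : π (g - (s - 1) • f - l • r) = -w := by
    rw [map_sub, map_sub, map_nsmul, map_nsmul, hπf, hr, smul_zero, sub_zero, ← hℓ, hl]
    rw [nsmul_eq_mul]
    push_cast
    ring
  refine ⟨Multiset.replicate (s - 1) f +
    ((g - (s - 1) • f - l • r) ::ₘ Multiset.replicate l r), ?_, ?_, ?_⟩
  · intro U hU hU0 hUs
    set A := Multiset.replicate (s - 1) f with hA
    set B := (g - (s - 1) • f - l • r) ::ₘ Multiset.replicate l r with hB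
    have hsplit : U - B + U ∩ B = U := Multiset.sub_add_inter U B
    have h1 : U - B ≤ A := by
      rw [Multiset.sub_le_iff_le_add]; exact hU
    have h2 : U ∩ B ≤ B := Multiset.inter_le_right
    have h3 : ∀ x ∈ U ∩ B, π x = -w := by
      intro x hx
      have hxB : x ∈ B := Multiset.mem_of_le h2 hx
      rw [hB, Multiset.mem_cons] at hxB
      rcases hxB with h | h
      · rw [h]; exact hπr1
      · rw [Multiset.eq_of_mem_replicate h]; exact hr
    have h4 : π (U ∩ B).sum = (Multiset.card (U ∩ B)) • (-w) := by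
      rw [map_multiset_sum, Multiset.map_congr rfl h3]
      simp
    obtain ⟨j, hj, hUj⟩ := Multiset.le_replicate_iff.mp h1
    have h5 : π (U - B).sum = 0 := by
      rw [hUj, Multiset.sum_replicate, map_nsmul, hπf, smul_zero]
    have h6 : (Multiset.card (U ∩ B)) • (-w) = 0 := by
      have h5' : π (U - B).sum + π (U ∩ B).sum = 0 := by
        rw [← map_add, ← Multiset.sum_add, hsplit, hUs, map_zero]
      rw [h5, zero_add, h4] at h5'
      exact h5'
    have h7 : k ∣ Multiset.card (U ∩ B) := by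
      rw [← ZMod.natCast_eq_zero_iff]
      rw [nsmul_eq_mul] at h6
      exact hw.neg.mul_left_eq_zero.mp h6
    have h8 : Multiset.card (U ∩ B) ≤ l + 1 := by
      have := Multiset.card_le_card h2
      rw [hB, Multiset.card_cons, Multiset.card_replicate] at this
      exact this
    have hd0 : 0 < d := Nat.pos_of_dvd_of_pos hd hk
    have h9 : Multiset.card (U ∩ B) = 0 := Nat.eq_zero_of_dvd_of_lt h7 (by omega)
    have h10 : U ∩ B = 0 := Multiset.card_eq_zero.mp h9
    have h11 : U = Multiset.replicate j f := by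
      rw [← hUj]
      conv_lhs => rw [← hsplit, h10, add_zero]
    have hj0 : 0 < j := by
      rcases Nat.eq_zero_or_pos j with h | h
      · exfalso; apply hU0; rw [h11, h]; rfl
      · exact h
    refine hf j hj0 (by omega) ?_
    rw [h11, Multiset.sum_replicate] at hUs
    exact hUs
  · rw [Multiset.sum_add, Multiset.sum_cons, Multiset.sum_replicate, Multiset.sum_replicate]
    abel
  · rw [Multiset.card_add, Multiset.card_cons, Multiset.card_replicate, Multiset.card_replicate,
      hl]

end RelDav
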