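import Mathlib
import Pool.Agent.Helper4.RD.Lower

/-!
# The value of the relative Davenport constant in rank at most two
-/

open Finset

namespace RelDav

theorem gcd_lemma (X₁ X₂ W₁ W₂ M : ℕ) (hM : 0 < M) : ∃ v : ℕ, ∀ d, d ∣ M →
    d ∣ X₁ + v * W₁ → d ∣ X₂ + v * W₂ → d ∣ X₁ ∧ d ∣ X₂ ∧ d ∣ W₁ ∧ d ∣ W₂ := by
  classical
  set D := Nat.gcd (Nat.gcd (Nat.gcd X₁ X₂) (Nat.gcd W₁ W₂)) M with hD
  have hDM : D ∣ M := Nat.gcd_dvd_right _ _
  have hDpos : 0 < D := Nat.pos_of_dvd_of_pos hDM hM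
  have hDl : D ∣ Nat.gcd (Nat.gcd X₁ X₂) (Nat.gcd W₁ W₂) := Nat.gcd_dvd_left _ _
  have hDX : D ∣ Nat.gcd X₁ X₂ := hDl.trans (Nat.gcd_dvd_left _ _)
  have hDW : D ∣ Nat.gcd W₁ W₂ := hDl.trans (Nat.gcd_dvd_right _ _)
  have hDX₁ : D ∣ X₁ := hDX.trans (Nat.gcd_dvd_left _ _)
  have hDX₂ : D ∣ X₂ := hDX.trans (Nat.gcd_dvd_right _ _)
  have hDW₁ : D ∣ W₁ := hDW.trans (Nat.gcd_dvd_left _ _)
  have hDW₂ : D ∣ W₂ := hDW.trans (Nat.gcd_dvd_right _ _)
  obtain ⟨x₁, hx₁⟩ := hDX₁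
  obtain ⟨x₂, hx₂⟩ := hDX₂
  obtain ⟨w₁, hw₁⟩ := hDW₁
  obtain ⟨w₂, hw₂⟩ := hDW₂
  obtain ⟨M', hM'⟩ := hDM
  have hM'0 : M' ≠ 0 := by rintro rfl; omega
  have hone : Nat.gcd (Nat.gcd (Nat.gcd x₁ x₂) (Nat.gcd w₁ w₂)) M' = 1 := by
    have h : D * Nat.gcd (Nat.gcd (Nat.gcd x₁ x₂) (Nat.gcd w₁ w₂)) M' = D * 1 := by
      rw [← Nat.gcd_mul_left, ← Nat.gcd_mul_left, ← Nat.gcd_mul_left, ← Nat.gcd_mul_left,
        ← hx₁, ← hx₂, ← hw₁, ← hw₂, ← hM', mul_one]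
    exact Nat.eq_of_mul_eq_mul_left hDpos h
  set v := ∏ p ∈ M'.primeFactors.filter (fun p => ¬ (p ∣ x₁ ∧ p ∣ x₂)), p with hv
  refine ⟨v, ?_⟩
  have hcop : Nat.gcd (Nat.gcd (x₁ + v * w₁) (x₂ + v * w₂)) M' = 1 := by
    rw [Nat.eq_one_iff_not_exists_prime_dvd]
    intro q hq hqd
    have hqM : q ∣ M' := hqd.trans (Nat.gcd_dvd_right _ _)
    have hqg := hqd.trans (Nat.gcd_dvd_left _ _)
    have hq1 : q ∣ x₁ + v * w₁ := hqg.trans (Nat.gcd_dvd_left _ _)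
    have hq2 : q ∣ x₂ + v * w₂ := hqg.trans (Nat.gcd_dvd_right _ _)
    by_cases hb : q ∣ x₁ ∧ q ∣ x₂
    · have hqv : ¬ q ∣ v := by
        intro h
        rw [hv, Prime.dvd_finsetProd_iff hq.prime] at h
        obtain ⟨p, hp, hqp⟩ := h
        rw [Finset.mem_filter, Nat.mem_primeFactors] at hp
        have : q = p := (Nat.prime_dvd_prime_iff_eq hq hp.1.1).mp hqp
        subst this
        exact hp.2 hb
      have h1 : q ∣ w₁ := by
        have := (Nat.dvd_add_right hb.1).mp hq1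
        exact (hq.dvd_mul.mp this).resolve_left hqv
      have h2 : q ∣ w₂ := by
        have := (Nat.dvd_add_right hb.2).mp hq2
        exact (hq.dvd_mul.mp this).resolve_left hqv
      have h3 : q ∣ 1 := by
        rw [← hone]
        exact Nat.dvd_gcd (Nat.dvd_gcd (Nat.dvd_gcd hb.1 hb.2) (Nat.dvd_gcd h1 h2)) hqM
      exact hq.one_lt.ne' (Nat.dvd_one.mp h3)
    · have hqv : q ∣ v := by
        rw [hv]
        exact Finset.dvd_prod_of_mem _ (Finset.mem_filter.mpr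
          ⟨Nat.mem_primeFactors.mpr ⟨hq, hqM, hM'0⟩, hb⟩)
      apply hb
      exact ⟨(Nat.dvd_add_left (hqv.mul_right _)).mp hq1, (Nat.dvd_add_left (hqv.mul_right _)).mp hq2⟩
  intro d hd h1 h2
  have hdD : d ∣ D := by
    have h3 : d ∣ Nat.gcd (Nat.gcd (X₁ + v * W₁) (X₂ + v * W₂)) M :=
      Nat.dvd_gcd (Nat.dvd_gcd h1 h2) hd
    have h4 : Nat.gcd (Nat.gcd (X₁ + v * W₁) (X₂ + v * W₂)) M = D := by
      have e1 : X₁ + v * W₁ = D * (x₁ + v * w₁) := by rw [hx₁, hw₁]; ring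
      have e2 : X₂ + v * W₂ = D * (x₂ + v * w₂) := by rw [hx₂, hw₂]; ring
      rw [e1, e2, hM', Nat.gcd_mul_left, Nat.gcd_mul_left, hcop, mul_one]
    rw [h4] at h3
    exact h3
  exact ⟨hdD.trans ⟨x₁, hx₁⟩, hdD.trans ⟨x₂, hx₂⟩, hdD.trans ⟨w₁, hw₁⟩, hdD.trans ⟨w₂, hw₂⟩⟩

/-- the gcd of both coordinates and `m` -/
def gam {m n : ℕ} (x : ZMod m × ZMod n) : ℕ := Nat.gcd (Nat.gcd x.1.val x.2.val) m

/-- the defect of `x` -/
def nn {m n : ℕ} (x : ZMod m × ZMod n) : ℕ :=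
  if gam x = m then Nat.gcd x.2.val n else gam x

theorem dvd_val_natCast {n : ℕ} {d : ℕ} (hd : d ∣ n) (X : ℕ) :
    d ∣ ((X : ℕ) : ZMod n).val ↔ d ∣ X := by
  rw [ZMod.val_natCast]
  exact Nat.dvd_mod_iff hd

theorem upper' {m n N₁ a N₂ b : ℕ} (hm : m = N₁ * a) (hn : n = N₂ * b) (h₂ : 0 < n) (hN : N₁ ∣ N₂)
    (hab : a ∣ b) (T : Multiset (ZMod m × ZMod n)) (hT : ZSF T) (h0 : T.sum ≠ 0)
    (h1 : N₁ ∣ T.sum.1.val) (h2 : N₂ ∣ T.sum.2.val) :
    Multiset.card T + 1 ≤ (a + b - 2) * N₂ + N₁ := by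
  subst hm
  subst hn
  have hn0 : NeZero (N₂ * b) := ⟨h₂.ne'⟩
  have hN2 : 0 < N₂ := Nat.pos_of_mul_pos_right h₂
  have hb : 0 < b := Nat.pos_of_mul_pos_left h₂
  have hN1 : 0 < N₁ := Nat.pos_of_dvd_of_pos hN hN2
  have ha : 0 < a := Nat.pos_of_dvd_of_pos hab hb
  have hm0 : NeZero (N₁ * a) := ⟨by positivity⟩
  refine upper h₂ hN hab T hT h0 ?_
  rw [redHom_apply, Prod.mk_eq_zero]
  constructor
  · rw [ZMod.castHom_apply, ← ZMod.natCast_val, ZMod.natCast_eq_zero_iff]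
    exact h1
  · rw [ZMod.castHom_apply, ← ZMod.natCast_val, ZMod.natCast_eq_zero_iff]
    exact h2

theorem upper_value {m n : ℕ} (hn : 0 < n) (hmn : m ∣ n) (T : Multiset (ZMod m × ZMod n))
    (hT : ZSF T) (h0 : T.sum ≠ 0) : Multiset.card T + nn T.sum + 1 ≤ m + n := by
  have hm : 0 < m := Nat.pos_of_dvd_of_pos hmn hn
  have hm0 : NeZero m := ⟨hm.ne'⟩
  have hn0 : NeZero n := ⟨hn.ne'⟩
  have hg : gam T.sum ∣ m := Nat.gcd_dvd_right _ _
  have hg12 : gam T.sum ∣ Nat.gcd T.sum.1.val T.sum.2.val := Nat.gcd_dvd_left _ _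
  have hg1 : gam T.sum ∣ T.sum.1.val := hg12.trans (Nat.gcd_dvd_left _ _)
  have hg2 : gam T.sum ∣ T.sum.2.val := hg12.trans (Nat.gcd_dvd_right _ _)
  unfold nn
  split_ifs with h
  · rw [h] at hg1 hg2
    have hc : m ∣ Nat.gcd T.sum.2.val n := Nat.dvd_gcd hg2 hmn
    obtain ⟨b, hb⟩ := Nat.gcd_dvd_right T.sum.2.val n
    have hb0 : 0 < b := by
      rcases Nat.eq_zero_or_pos b with h' | h'
      · rw [h', mul_zero] at hb; omega
      · exact h'
    have := upper' (m := m) (n := n) (N₁ := m) (a := 1) (N₂ := Nat.gcd T.sum.2.val n) (b := b)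
      (mul_one m).symm hb hn hc (one_dvd _) T hT h0 hg1 (Nat.gcd_dvd_left _ _)
    obtain ⟨b', rfl⟩ : ∃ b', b = b' + 1 := ⟨b - 1, by omega⟩
    have e : 1 + (b' + 1) - 2 = b' := by omega
    rw [e] at this
    have e2 : n = b' * Nat.gcd T.sum.2.val n + Nat.gcd T.sum.2.val n := by
      calc n = Nat.gcd T.sum.2.val n * (b' + 1) := hb
        _ = b' * Nat.gcd T.sum.2.val n + Nat.gcd T.sum.2.val n := by ring
    omega
  · have hgpos : 0 < gam T.sum := Nat.pos_of_dvd_of_pos hg hm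
    obtain ⟨a, ha⟩ := hg
    obtain ⟨b, hb⟩ := (Nat.gcd_dvd_right (Nat.gcd T.sum.1.val T.sum.2.val) m).trans hmn
    change n = gam T.sum * b at hb
    have hab : a ∣ b := by
      apply Nat.dvd_of_mul_dvd_mul_left hgpos
      rw [← ha, ← hb]; exact hmn
    have ha0 : 0 < a := by
      rcases Nat.eq_zero_or_pos a with h' | h'
      · rw [h', mul_zero] at ha; omega
      · exact h'
    have hb0 : 0 < b := by
      rcases Nat.eq_zero_or_pos b with h' | h'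
      · rw [h', mul_zero] at hb; omega
      · exact h'
    have := upper' ha hb hn dvd_rfl hab T hT h0 hg1 hg2
    obtain ⟨a', rfl⟩ : ∃ a', a = a' + 1 := ⟨a - 1, by omega⟩
    obtain ⟨b', rfl⟩ : ∃ b', b = b' + 1 := ⟨b - 1, by omega⟩
    have e : a' + 1 + (b' + 1) - 2 = a' + b' := by omega
    rw [e] at this
    have e2 : m + n = (a' + b') * gam T.sum + gam T.sum + gam T.sum := by
      calc m + n = gam T.sum * (a' + 1) + gam T.sum * (b' + 1) := by rw [← ha, ← hb]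
        _ = (a' + b') * gam T.sum + gam T.sum + gam T.sum := by ring
    omega

theorem lower_value {m n : ℕ} (hn : 0 < n) (hmn : m ∣ n) (g : ZMod m × ZMod n) (hg0 : g ≠ 0) :
    ∃ T : Multiset (ZMod m × ZMod n), ZSF T ∧ T.sum = g ∧
      m + n ≤ Multiset.card T + nn g + 1 := by
  have hm : 0 < m := Nat.pos_of_dvd_of_pos hmn hn
  have hm0 : NeZero m := ⟨hm.ne'⟩
  have hn0 : NeZero n := ⟨hn.ne'⟩
  have hg : gam g ∣ m := Nat.gcd_dvd_right _ _
  have hg12 : gam g ∣ Nat.gcd g.1.val g.2.val := Nat.gcd_dvd_left _ _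
  have hg1 : gam g ∣ g.1.val := hg12.trans (Nat.gcd_dvd_left _ _)
  have hg2 : gam g ∣ g.2.val := hg12.trans (Nat.gcd_dvd_right _ _)
  by_cases h : gam g = m
  · -- the first coordinate vanishes
    have h1 : g.1 = 0 := by
      rw [← ZMod.val_eq_zero]
      rw [h] at hg1
      exact Nat.eq_zero_of_dvd_of_lt hg1 (ZMod.val_lt _)
    have h2 : g.2 ≠ 0 := fun h2 => hg0 (Prod.ext h1 h2)
    obtain ⟨T, hT, hTs, hTc⟩ := lower_lemma (G := ZMod m × ZMod n) (k := n) (s := m) hn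
      (AddMonoidHom.snd _ _) (1, 0) (by
        intro j hj hjm h
        have h' := congrArg Prod.fst h
        rw [Prod.smul_mk, nsmul_eq_mul, mul_one] at h'
        change (j : ZMod m) = 0 at h'
        rw [ZMod.natCast_eq_zero_iff] at h'
        exact absurd (Nat.le_of_dvd hj h') (by omega)) rfl
      (fun u => ⟨(0, u), rfl⟩) g h2
    refine ⟨T, hT, hTs, ?_⟩
    have e : nn g = Nat.gcd g.2.val n := by unfold nn; rw [if_pos h]
    rw [hTc, e]
    change m + n ≤ m - 1 + (n - Nat.gcd g.2.val n) + Nat.gcd g.2.val n + 1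
    have : Nat.gcd g.2.val n ≤ n := Nat.le_of_dvd hn (Nat.gcd_dvd_right _ _)
    omega
  · -- generic case
    obtain ⟨v, hv⟩ := gcd_lemma g.1.val 0 g.2.val 0 m hm
    let π : ZMod m × ZMod n →+ ZMod m :=
      AddMonoidHom.fst _ _ + (AddMonoidHom.mulLeft (v : ZMod m)).comp
        ((ZMod.castHom hmn (ZMod m)).toAddMonoidHom.comp (AddMonoidHom.snd _ _))
    have hπ : ∀ x : ZMod m × ZMod n, π x = x.1 + v * ZMod.castHom hmn (ZMod m) x.2 := fun x => rfl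
    have hπg : π g = ((g.1.val + v * g.2.val : ℕ) : ZMod m) := by
      rw [hπ, Nat.cast_add, Nat.cast_mul, ZMod.natCast_zmod_val, ZMod.castHom_apply,
        ZMod.natCast_val]
    have hgcd : Nat.gcd (π g).val m = gam g := by
      apply Nat.dvd_antisymm
      · have h1 : Nat.gcd (π g).val m ∣ g.1.val + v * g.2.val := by
          rw [← dvd_val_natCast (Nat.gcd_dvd_right (π g).val m) (g.1.val + v * g.2.val), ← hπg]
          exact Nat.gcd_dvd_left _ _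
        obtain ⟨h2, _, h3, _⟩ := hv _ (Nat.gcd_dvd_right _ _) h1 (by simp)
        exact Nat.dvd_gcd (Nat.dvd_gcd h2 h3) (Nat.gcd_dvd_right _ _)
      · refine Nat.dvd_gcd ?_ hg
        rw [hπg, dvd_val_natCast hg]
        exact (Nat.dvd_add_right hg1).mpr (hg2.mul_left _)
    have hπg0 : π g ≠ 0 := by
      intro h0
      rw [h0, ZMod.val_zero, Nat.gcd_zero_left] at hgcd
      exact h hgcd.symm
    obtain ⟨T, hT, hTs, hTc⟩ := lower_lemma (G := ZMod m × ZMod n) (k := m) (s := n) hm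
      π (-(v : ZMod m), 1) (by
        intro j hj hjn h
        have h' := congrArg Prod.snd h
        rw [Prod.smul_mk, nsmul_eq_mul, nsmul_eq_mul, mul_one] at h'
        change (j : ZMod n) = 0 at h'
        rw [ZMod.natCast_eq_zero_iff] at h'
        exact absurd (Nat.le_of_dvd hj h') (by omega)) (by
        rw [hπ, map_one]; ring)
      (fun u => ⟨(u, 0), by rw [hπ, map_zero]; ring⟩) g hπg0
    refine ⟨T, hT, hTs, ?_⟩
    have e : nn g = gam g := by unfold nn; rw [if_neg h]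
    rw [hTc, e, hgcd]
    have : gam g ≤ m := Nat.le_of_dvd hm hg
    omega

end RelDav
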