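import Mathlib
import Pool.Agent.Helper4.RD.Value

/-!
# The coset argument
-/

open Finset

namespace RelDav

variable {m n : ℕ}

/-- reduction of both coordinates modulo a divisor of both moduli -/
def rho (d : ℕ) (h₁ : d ∣ m) (h₂ : d ∣ n) : ZMod m × ZMod n →+ ZMod d × ZMod d :=
  AddMonoidHom.prodMap (ZMod.castHom h₁ (ZMod d)).toAddMonoidHom
    (ZMod.castHom h₂ (ZMod d)).toAddMonoidHom

theorem rho_eq_zero [NeZero m] [NeZero n] {d : ℕ} (h₁ : d ∣ m) (h₂ : d ∣ n)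
    (x : ZMod m × ZMod n) : rho d h₁ h₂ x = 0 ↔ d ∣ x.1.val ∧ d ∣ x.2.val := by
  change (ZMod.castHom h₁ (ZMod d) x.1, ZMod.castHom h₂ (ZMod d) x.2) = 0 ↔ _
  rw [Prod.mk_eq_zero, ZMod.castHom_apply, ZMod.castHom_apply, ← ZMod.natCast_val,
    ← ZMod.natCast_val, ZMod.natCast_eq_zero_iff, ZMod.natCast_eq_zero_iff]

/-- Among the elements of `a + H` there is one, `a'`, whose gcd `gam a'` divides `a'` and all
elements of `H`. -/
theorem exists_min_gam (hn : 0 < n) (hmn : m ∣ n) (H : AddSubgroup (ZMod m × ZMod n))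
    (a : ZMod m × ZMod n) : ∃ a', a' - a ∈ H ∧
      ∀ h ∈ H, gam a' ∣ h.1.val ∧ gam a' ∣ h.2.val := by
  have hm : 0 < m := Nat.pos_of_dvd_of_pos hmn hn
  have hm0 : NeZero m := ⟨hm.ne'⟩
  have hn0 : NeZero n := ⟨hn.ne'⟩
  obtain ⟨a', ha', hmin⟩ := (measure (gam : ZMod m × ZMod n → ℕ)).wf.has_min {x | x - a ∈ H}
    ⟨a, by simp [H.zero_mem]⟩
  have ha'' : a' - a ∈ H := ha'
  refine ⟨a', ha'', ?_⟩
  intro h hh
  obtain ⟨v, hv⟩ := gcd_lemma a'.1.val a'.2.val h.1.val h.2.val m hm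
  have hx : a' + v • h - a ∈ H := by
    have : a' + v • h - a = (a' - a) + v • h := by abel
    rw [this]
    exact H.add_mem ha'' (H.nsmul_mem hh v)
  have hle : gam a' ≤ gam (a' + v • h) := by
    by_contra hcon
    exact hmin _ hx (not_le.mp hcon)
  have hdm : gam (a' + v • h) ∣ m := Nat.gcd_dvd_right _ _
  have h12 : gam (a' + v • h) ∣ Nat.gcd (a' + v • h).1.val (a' + v • h).2.val :=
    Nat.gcd_dvd_left _ _
  have h1 : gam (a' + v • h) ∣ a'.1.val + v * h.1.val := by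
    have e : (a' + v • h).1 = ((a'.1.val + v * h.1.val : ℕ) : ZMod m) := by
      rw [Nat.cast_add, Nat.cast_mul, ZMod.natCast_zmod_val, ZMod.natCast_zmod_val, Prod.fst_add,
        Prod.smul_fst, nsmul_eq_mul]
    have := h12.trans (Nat.gcd_dvd_left _ _)
    rwa [e, dvd_val_natCast hdm] at this
  have h2 : gam (a' + v • h) ∣ a'.2.val + v * h.2.val := by
    have e : (a' + v • h).2 = ((a'.2.val + v * h.2.val : ℕ) : ZMod n) := by
      rw [Nat.cast_add, Nat.cast_mul, ZMod.natCast_zmod_val, ZMod.natCast_zmod_val, Prod.snd_add,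
        Prod.smul_snd, nsmul_eq_mul]
    have := h12.trans (Nat.gcd_dvd_right _ _)
    rwa [e, dvd_val_natCast (hdm.trans hmn)] at this
  obtain ⟨h3, h4, h5, h6⟩ := hv _ hdm h1 h2
  have hd : gam (a' + v • h) ∣ gam a' := Nat.dvd_gcd (Nat.dvd_gcd h3 h4) hdm
  have hpos : 0 < gam a' := Nat.pos_of_dvd_of_pos (Nat.gcd_dvd_right _ _) hm
  have heq : gam (a' + v • h) = gam a' := le_antisymm (Nat.le_of_dvd hpos hd) hle
  rw [heq] at h5 h6
  exact ⟨h5, h6⟩

theorem exists_min_snd (hn : 0 < n) (H : AddSubgroup (ZMod m × ZMod n))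
    (a : ZMod m × ZMod n) : ∃ a', a' - a ∈ H ∧
      ∀ h ∈ H, Nat.gcd a'.2.val n ∣ h.2.val := by
  have hn0 : NeZero n := ⟨hn.ne'⟩
  obtain ⟨a', ha', hmin⟩ :=
    (measure (fun x : ZMod m × ZMod n => Nat.gcd x.2.val n)).wf.has_min {x | x - a ∈ H}
    ⟨a, by simp [H.zero_mem]⟩
  have ha'' : a' - a ∈ H := ha'
  refine ⟨a', ha'', ?_⟩
  intro h hh
  obtain ⟨v, hv⟩ := gcd_lemma a'.2.val 0 h.2.val 0 n hn
  have hx : a' + v • h - a ∈ H := by
    have : a' + v • h - a = (a' - a) + v • h := by abel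
    rw [this]
    exact H.add_mem ha'' (H.nsmul_mem hh v)
  have hle : Nat.gcd a'.2.val n ≤ Nat.gcd (a' + v • h).2.val n := by
    by_contra hcon
    exact hmin _ hx (not_le.mp hcon)
  have hdn : Nat.gcd (a' + v • h).2.val n ∣ n := Nat.gcd_dvd_right _ _
  have h2 : Nat.gcd (a' + v • h).2.val n ∣ a'.2.val + v * h.2.val := by
    have e : (a' + v • h).2 = ((a'.2.val + v * h.2.val : ℕ) : ZMod n) := by
      rw [Nat.cast_add, Nat.cast_mul, ZMod.natCast_zmod_val, ZMod.natCast_zmod_val, Prod.snd_add,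
        Prod.smul_snd, nsmul_eq_mul]
    rw [← dvd_val_natCast hdn (a'.2.val + v * h.2.val), ← e]
    exact Nat.gcd_dvd_left _ _
  obtain ⟨h3, _, h5, _⟩ := hv _ hdn h2 (by simp)
  have hd : Nat.gcd (a' + v • h).2.val n ∣ Nat.gcd a'.2.val n := Nat.dvd_gcd h3 hdn
  have hpos : 0 < Nat.gcd a'.2.val n := Nat.pos_of_dvd_of_pos (Nat.gcd_dvd_right _ _) hn
  have heq : Nat.gcd (a' + v • h).2.val n = Nat.gcd a'.2.val n :=
    le_antisymm (Nat.le_of_dvd hpos hd) hle
  rw [heq] at h5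
  exact h5

theorem gam_le_nn (hn : 0 < n) (hmn : m ∣ n) (b : ZMod m × ZMod n) : gam b ≤ nn b := by
  unfold nn
  split_ifs with h
  · rw [h]
    have hg12 : gam b ∣ Nat.gcd b.1.val b.2.val := Nat.gcd_dvd_left _ _
    have hg2 : gam b ∣ b.2.val := hg12.trans (Nat.gcd_dvd_right _ _)
    rw [h] at hg2
    exact Nat.le_of_dvd (Nat.pos_of_dvd_of_pos (Nat.gcd_dvd_right _ _) hn)
      (Nat.dvd_gcd hg2 hmn)
  · exact le_rfl

/-- The best representative of the coset of `a`. -/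
theorem coset_best (hn : 0 < n) (hmn : m ∣ n) (H : AddSubgroup (ZMod m × ZMod n))
    (a b : ZMod m × ZMod n) (k : ℤ) (hb : b - k • a ∈ H) (hb0 : b ≠ 0) :
    ∃ a', a' - a ∈ H ∧ a' ≠ 0 ∧ nn a' ≤ nn b := by
  have hm : 0 < m := Nat.pos_of_dvd_of_pos hmn hn
  have hm0 : NeZero m := ⟨hm.ne'⟩
  have hn0 : NeZero n := ⟨hn.ne'⟩
  obtain ⟨a', ha', hmin⟩ := exists_min_gam hn hmn H a
  have hdm : gam a' ∣ m := Nat.gcd_dvd_right _ _
  have hdn : gam a' ∣ n := hdm.trans hmn
  have ha0 : rho (gam a') hdm hdn a' = 0 := by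
    rw [rho_eq_zero]
    have h12 : gam a' ∣ Nat.gcd a'.1.val a'.2.val := Nat.gcd_dvd_left _ _
    exact ⟨h12.trans (Nat.gcd_dvd_left _ _), h12.trans (Nat.gcd_dvd_right _ _)⟩
  have hH0 : ∀ h ∈ H, rho (gam a') hdm hdn h = 0 := fun h hh => by
    rw [rho_eq_zero]; exact hmin h hh
  have haa : rho (gam a') hdm hdn a = 0 := by
    have := hH0 _ ha'
    rw [map_sub, ha0, zero_sub, neg_eq_zero] at this
    exact this
  have hbb : rho (gam a') hdm hdn b = 0 := by
    have := hH0 _ hb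
    rw [map_sub, map_zsmul, haa, smul_zero, sub_zero] at this
    exact this
  rw [rho_eq_zero] at hbb
  have hgb : gam a' ∣ gam b := Nat.dvd_gcd (Nat.dvd_gcd hbb.1 hbb.2) hdm
  have hgbpos : 0 < gam b := Nat.pos_of_dvd_of_pos (Nat.gcd_dvd_right _ _) hm
  by_cases hlt : gam a' = m
  · -- everything is divisible by `m`
    obtain ⟨a'', ha'', hmin'⟩ := exists_min_snd hn H a
    have hcn : Nat.gcd a''.2.val n ∣ n := Nat.gcd_dvd_right _ _
    have hgbm : gam b = m := by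
      rw [hlt] at hgb
      exact Nat.dvd_antisymm (Nat.gcd_dvd_right _ _) hgb
    have hb1 : b.1 = 0 := by
      rw [← ZMod.val_eq_zero]
      have := hbb.1
      rw [hlt] at this
      exact Nat.eq_zero_of_dvd_of_lt this (ZMod.val_lt _)
    have hb2 : b.2 ≠ 0 := fun h => hb0 (Prod.ext hb1 h)
    -- the second coordinate of `b`
    have hτ : ∀ x : ZMod n, ZMod.castHom hcn (ZMod (Nat.gcd a''.2.val n)) x = 0 ↔
        Nat.gcd a''.2.val n ∣ x.val := by
      intro x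
      rw [ZMod.castHom_apply, ← ZMod.natCast_val, ZMod.natCast_eq_zero_iff]
    have hc0 : ZMod.castHom hcn (ZMod (Nat.gcd a''.2.val n)) a''.2 = 0 := by
      rw [hτ]; exact Nat.gcd_dvd_left _ _
    have hca : ZMod.castHom hcn (ZMod (Nat.gcd a''.2.val n)) a.2 = 0 := by
      have := (hτ _).mpr (hmin' _ ha'')
      rw [Prod.snd_sub, map_sub, hc0, zero_sub, neg_eq_zero] at this
      exact this
    have hcb : ZMod.castHom hcn (ZMod (Nat.gcd a''.2.val n)) b.2 = 0 := by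
      have := (hτ _).mpr (hmin' _ hb)
      rw [Prod.snd_sub, Prod.smul_snd, map_sub, map_zsmul, hca, smul_zero, sub_zero] at this
      exact this
    rw [hτ] at hcb
    have hcle : Nat.gcd a''.2.val n ≤ Nat.gcd b.2.val n :=
      Nat.le_of_dvd (Nat.pos_of_dvd_of_pos (Nat.gcd_dvd_right _ _) hn)
        (Nat.dvd_gcd hcb hcn)
    have hclt : Nat.gcd b.2.val n < n := by
      rcases lt_or_eq_of_le (Nat.le_of_dvd hn (Nat.gcd_dvd_right b.2.val n)) with h | h
      · exact h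
      · exfalso
        apply hb2
        rw [← ZMod.val_eq_zero]
        have : n ∣ b.2.val := by
          conv_lhs => rw [← h]
          exact Nat.gcd_dvd_left _ _
        exact Nat.eq_zero_of_dvd_of_lt this (ZMod.val_lt _)
    have hga : gam a'' = m := by
      have h1 : rho (gam a') hdm hdn a'' = 0 := by
        have := hH0 _ ha''
        rw [map_sub, haa, sub_zero] at this
        exact this
      rw [rho_eq_zero, hlt] at h1
      exact Nat.dvd_antisymm (Nat.gcd_dvd_right _ _) (Nat.dvd_gcd (Nat.dvd_gcd h1.1 h1.2) dvd_rfl)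
    refine ⟨a'', ha'', ?_, ?_⟩
    · intro h
      rw [h] at hcle
      rw [Prod.snd_zero, ZMod.val_zero, Nat.gcd_zero_left] at hcle
      omega
    · unfold nn
      rw [if_pos hga, if_pos hgbm]
      exact hcle
  · refine ⟨a', ha', ?_, ?_⟩
    · intro h
      apply hlt
      rw [h]
      simp [gam]
    · have e : nn a' = gam a' := by unfold nn; rw [if_neg hlt]
      rw [e]
      exact (Nat.le_of_dvd hgbpos hgb).trans (gam_le_nn hn hmn b)

end RelDav
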