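import Mathlib
import Pool.Agent.Helper4.RD.Upper

/-!
# The group ring argument for `p`-groups

Upper bound for the length of a zero-sum free sequence of a finite abelian `p`-group whose sum
is divisible by `p ^ h`.
-/

open Finset

namespace RelDav

/-- in characteristic `p` -/
theorem one_sub_pow_eq {A : Type*} [CommRing A] (p : ℕ) [Fact p.Prime] [Algebra (ZMod p) A]
    (z : A) (h : ℕ) : (1 - z) ^ p ^ h = 1 - z ^ p ^ h := by
  have h1 : (1 - (Polynomial.X : Polynomial (ZMod p))) ^ p ^ h = 1 - Polynomial.X ^ p ^ h := by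
    rw [sub_pow_char_pow, one_pow]
  have h2 := congrArg (Polynomial.aeval z) h1
  simpa using h2

theorem one_sub_pow_sub_one {A : Type*} [CommRing A] (p : ℕ) [Fact p.Prime] [Algebra (ZMod p) A]
    (z : A) (h : ℕ) : (1 - z) ^ (p ^ h - 1) = ∑ k ∈ Finset.range (p ^ h), z ^ k := by
  have hp : p.Prime := Fact.out
  have hpos : 0 < p ^ h := pow_pos hp.pos h
  have hne : (1 - (Polynomial.X : Polynomial (ZMod p))) ≠ 0 := by
    intro h0
    have := congrArg (Polynomial.eval 0) h0
    simp at this
  have h1 : (1 - (Polynomial.X : Polynomial (ZMod p))) ^ (p ^ h - 1) =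
      ∑ k ∈ Finset.range (p ^ h), Polynomial.X ^ k := by
    apply mul_right_cancel₀ hne
    rw [geom_sum_mul_neg, ← pow_succ, Nat.sub_add_cancel hpos, sub_pow_char_pow, one_pow]
  have h2 := congrArg (Polynomial.aeval z) h1
  simpa using h2

section

variable {ι : Type} [Fintype ι] [DecidableEq ι] (p : ℕ) [Fact p.Prime] (n : ι → ℕ)

/-- the group ring of `∏ Z/n_i` over `F_p` -/
abbrev GR := AddMonoidAlgebra (ZMod p) (∀ i, ZMod (n i))

/-- the group element `g` in the group ring -/
noncomputable def XX (g : ∀ i, ZMod (n i)) : GR p n := AddMonoidAlgebra.single g 1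

omit [Fintype ι] [DecidableEq ι] in
theorem XX_add (g h : ∀ i, ZMod (n i)) : XX p n (g + h) = XX p n g * XX p n h := by
  unfold XX
  rw [AddMonoidAlgebra.single_mul_single, mul_one]

omit [Fintype ι] [DecidableEq ι] in
theorem XX_zero : XX p n 0 = 1 := rfl

omit [Fintype ι] [DecidableEq ι] in
theorem XX_nsmul (g : ∀ i, ZMod (n i)) (k : ℕ) : XX p n (k • g) = XX p n g ^ k := by
  induction k with
  | zero => rw [zero_smul, pow_zero, XX_zero]
  | succ k ih => rw [succ_nsmul, XX_add, ih, pow_succ]

/-- the ideal generated by `1 - X(e_i)` -/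
noncomputable def II (i : ι) : Ideal (GR p n) := Ideal.span {1 - XX p n (Pi.single i 1)}

omit [Fintype ι] in
theorem II_pow (e : ι → ℕ) (hn : ∀ i, n i = p ^ e i) (i : ι) : II p n i ^ (n i) = 0 := by
  unfold II
  rw [Ideal.span_singleton_pow]
  have h1 : (1 - XX p n (Pi.single i 1)) ^ (n i) = 0 := by
    have h2 : (1 - XX p n (Pi.single i 1)) ^ (p ^ e i) = 1 - XX p n (Pi.single i 1) ^ (p ^ e i) :=
      one_sub_pow_eq p _ _
    rw [← hn i, ← XX_nsmul, ← Pi.single_smul, nsmul_eq_mul, mul_one, ZMod.natCast_self,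
      Pi.single_zero, XX_zero, sub_self] at h2
    exact h2
  rw [h1]
  simp

/-- the augmentation ideal -/
noncomputable def IJ (J : Finset ι) : Ideal (GR p n) := ∑ i ∈ J, II p n i

omit [Fintype ι] in
theorem IJ_pow (e : ι → ℕ) (hn : ∀ i, n i = p ^ e i) (J : Finset ι) :
    IJ p n J ^ (∑ i ∈ J, (n i - 1) + 1) = 0 := by
  unfold IJ
  induction J using Finset.induction_on with
  | empty => simp
  | insert i J hi ih =>
    rw [Finset.sum_insert hi, Finset.sum_insert hi]
    have hp : p.Prime := Fact.out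
    have hpos : 0 < n i := by rw [hn i]; exact pow_pos hp.pos _
    exact (Commute.all _ _).add_pow_eq_zero_of_add_le_succ_of_pow_eq_zero (II_pow p n e hn i) ih
      (by omega)

theorem one_sub_XX_mem (e : ι → ℕ) (hn : ∀ i, n i = p ^ e i) (g : ∀ i, ZMod (n i)) :
    1 - XX p n g ∈ IJ p n Finset.univ := by
  have hp : p.Prime := Fact.out
  let M : AddSubmonoid (∀ i, ZMod (n i)) :=
    { carrier := {g | 1 - XX p n g ∈ IJ p n Finset.univ}
      add_mem' := by
        intro a b ha hb
        change 1 - XX p n (a + b) ∈ IJ p n Finset.univ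
        have : 1 - XX p n (a + b) = (1 - XX p n a) + XX p n a * (1 - XX p n b) := by
          rw [XX_add]; ring
        rw [this]
        exact Ideal.add_mem _ ha (Ideal.mul_mem_left _ _ hb)
      zero_mem' := by
        change 1 - XX p n 0 ∈ IJ p n Finset.univ
        rw [XX_zero, sub_self]
        exact Ideal.zero_mem _ }
  have h1 : ∀ i, Pi.single i 1 ∈ M := by
    intro i
    change 1 - XX p n (Pi.single i 1) ∈ IJ p n Finset.univ
    have hle : II p n i ≤ IJ p n Finset.univ := by
      unfold IJ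
      rw [Ideal.sum_eq_sup]
      exact Finset.le_sup (f := II p n) (Finset.mem_univ i)
    exact hle (Ideal.subset_span rfl)
  have h2 : g = ∑ i, (g i).val • Pi.single i (1 : ZMod (n i)) := by
    funext j
    rw [Finset.sum_apply]
    have hne : NeZero (n j) := ⟨by rw [hn j]; exact (pow_pos hp.pos _).ne'⟩
    rw [Finset.sum_eq_single j]
    · rw [Pi.smul_apply, Pi.single_eq_same, nsmul_eq_mul, mul_one, ZMod.natCast_zmod_val]
    · intro i _ hij
      rw [Pi.smul_apply, Pi.single_eq_of_ne hij.symm, smul_zero]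
    · intro h; exact absurd (Finset.mem_univ j) h
  change g ∈ M
  rw [h2]
  exact M.sum_mem (fun i _ => M.nsmul_mem (h1 i) _)

/-- the signed number of subfamilies with sum `x` -/
noncomputable def cc {G κ : Type} [AddCommGroup G] (s : Finset κ) (f : κ → G) (x : G) : ZMod p := by
  classical
  exact ∑ t ∈ s.powerset.filter (fun t => ∑ j ∈ t, f j = x), (-1) ^ t.card

omit [Fintype ι] [DecidableEq ι] in
theorem prod_one_sub {κ : Type} (s : Finset κ) (f : κ → ∀ i, ZMod (n i)) :
    ∏ j ∈ s, (1 - XX p n (f j)) =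
      ∑ t ∈ s.powerset, AddMonoidAlgebra.single (∑ j ∈ t, f j) ((-1 : ZMod p) ^ t.card) := by
  classical
  have h1 : ∀ j, 1 - XX p n (f j) = 1 + AddMonoidAlgebra.single (f j) (-1 : ZMod p) := by
    intro j
    rw [sub_eq_add_neg]
    congr 1
    unfold XX
    rw [← AddMonoidAlgebra.single_neg]
  simp only [h1]
  rw [Finset.prod_one_add]
  refine Finset.sum_congr rfl ?_
  intro t ht
  clear ht
  induction t using Finset.induction_on with
  | empty => simp [AddMonoidAlgebra.one_def]
  | insert j t hj ih =>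
    rw [Finset.prod_insert hj, ih, Finset.sum_insert hj, Finset.card_insert_of_notMem hj,
      AddMonoidAlgebra.single_mul_single]
    congr 1
    rw [pow_succ]; ring

/-- If the family is long, the signed counts over the multiples of `y` add up to zero. -/
theorem sum_cc_eq_zero (e : ι → ℕ) (hn : ∀ i, n i = p ^ e i) {κ : Type} (s : Finset κ)
    (f : κ → ∀ i, ZMod (n i)) (y : ∀ i, ZMod (n i)) (h : ℕ)
    (hlen : ∑ i, (n i - 1) + 1 ≤ s.card + (p ^ h - 1)) :
    ∑ k ∈ Finset.range (p ^ h), cc p s f (k • y) = 0 := by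
  classical
  have hprod : (∏ j ∈ s, (1 - XX p n (f j))) * (1 - XX p n (-y)) ^ (p ^ h - 1) = 0 := by
    have h1 : (∏ j ∈ s, (1 - XX p n (f j))) ∈ IJ p n Finset.univ ^ s.card := by
      have := Ideal.prod_mem_prod (s := s) (I := fun _ => IJ p n Finset.univ)
        (x := fun j => 1 - XX p n (f j)) (fun j _ => one_sub_XX_mem p n e hn (f j))
      rwa [Finset.prod_const] at this
    have h2 : (1 - XX p n (-y)) ^ (p ^ h - 1) ∈ IJ p n Finset.univ ^ (p ^ h - 1) :=
      Ideal.pow_mem_pow (one_sub_XX_mem p n e hn (-y)) _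
    have h3 := Ideal.mul_mem_mul h1 h2
    rw [← pow_add] at h3
    have h4 := Ideal.pow_le_pow_right hlen h3
    rw [IJ_pow p n e hn Finset.univ] at h4
    simpa using h4
  rw [one_sub_pow_sub_one, prod_one_sub, Finset.sum_mul_sum] at hprod
  have hcoeff := congrArg (fun F : GR p n => F.coeff 0) hprod
  simp only [AddMonoidAlgebra.coeff_sum, Finsupp.finsetSum_apply, AddMonoidAlgebra.coeff_zero,
    Finsupp.coe_zero, Pi.zero_apply] at hcoeff
  have hterm : ∀ (t : Finset κ) (k : ℕ),
      (AddMonoidAlgebra.single (∑ j ∈ t, f j) ((-1 : ZMod p) ^ t.card) *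
        XX p n (-y) ^ k).coeff 0 = if ∑ j ∈ t, f j = k • y then (-1 : ZMod p) ^ t.card else 0 := by
    intro t k
    rw [← XX_nsmul]
    unfold XX
    rw [AddMonoidAlgebra.single_mul_single, mul_one, AddMonoidAlgebra.coeff_single,
      Finsupp.single_apply]
    have : (∑ j ∈ t, f j + k • -y = 0) ↔ (∑ j ∈ t, f j = k • y) := by
      rw [smul_neg, ← sub_eq_add_neg, sub_eq_zero]
    simp only [this]
  simp only [hterm] at hcoeff
  rw [Finset.sum_comm] at hcoeff
  rw [← hcoeff]
  refine Finset.sum_congr rfl ?_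
  intro k _
  unfold cc
  rw [Finset.sum_filter]
  refine Finset.sum_congr rfl ?_
  intro t _
  congr

end

end RelDav
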