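import Mathlib
import Pool.Agent.Helper4.RD.GroupRing

/-!
# Upper bound for `p`-groups
-/

open Finset

namespace RelDav

section

variable {G κ : Type} [AddCommGroup G] (p : ℕ) [Fact p.Prime]

theorem cc_eq [DecidableEq G] (s : Finset κ) (f : κ → G) (x : G) :
    cc p s f x = ∑ t ∈ s.powerset.filter (fun t => ∑ j ∈ t, f j = x), (-1) ^ t.card := by
  unfold cc
  refine Finset.sum_congr ?_ (fun _ _ => rfl)
  ext t
  simp only [Finset.mem_filter]

theorem cc_zero (s : Finset κ) (f : κ → G)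
    (hs : ¬ ∃ C : Finset κ, C ⊆ s ∧ C.Nonempty ∧ ∑ i ∈ C, f i = 0) : cc p s f 0 = 1 := by
  classical
  rw [cc_eq]
  have : s.powerset.filter (fun t => ∑ j ∈ t, f j = 0) = {∅} := by
    ext t
    rw [Finset.mem_filter, Finset.mem_powerset, Finset.mem_singleton]
    constructor
    · rintro ⟨h1, h2⟩
      by_contra hne
      exact hs ⟨t, h1, Finset.nonempty_iff_ne_empty.mpr hne, h2⟩
    · rintro rfl
      exact ⟨Finset.empty_subset _, Finset.sum_empty⟩
  rw [this, Finset.sum_singleton, Finset.card_empty, pow_zero]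

theorem cc_symm (s : Finset κ) (f : κ → G) (x : G) :
    cc p s f (∑ j ∈ s, f j - x) = (-1) ^ s.card * cc p s f x := by
  classical
  rw [cc_eq, cc_eq, Finset.mul_sum]
  have hsd : ∀ t, t ⊆ s → ∑ j ∈ s \ t, f j = ∑ j ∈ s, f j - ∑ j ∈ t, f j := by
    intro t ht
    have := Finset.sum_sdiff (f := f) ht
    rw [← this]; abel
  refine Finset.sum_bij' (fun t _ => s \ t) (fun t _ => s \ t) ?_ ?_ ?_ ?_ ?_
  · intro t ht
    rw [Finset.mem_filter, Finset.mem_powerset] at ht ⊢
    refine ⟨Finset.sdiff_subset, ?_⟩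
    rw [hsd t ht.1, ht.2]; abel
  · intro t ht
    rw [Finset.mem_filter, Finset.mem_powerset] at ht ⊢
    refine ⟨Finset.sdiff_subset, ?_⟩
    rw [hsd t ht.1, ht.2]
  · intro t ht
    rw [Finset.mem_filter, Finset.mem_powerset] at ht
    exact Finset.sdiff_sdiff_eq_self ht.1
  · intro t ht
    rw [Finset.mem_filter, Finset.mem_powerset] at ht
    exact Finset.sdiff_sdiff_eq_self ht.1
  · intro t ht
    rw [Finset.mem_filter, Finset.mem_powerset] at ht
    have hc : (s \ t).card + t.card = s.card := Finset.card_sdiff_add_card_eq_card ht.1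
    rw [← hc, ← pow_add, show (s \ t).card + t.card + (s \ t).card = 2 * (s \ t).card + t.card by ring,
      pow_add, pow_mul]
    simp

theorem cc_self (hp2 : p = 2) (s : Finset κ) (hne : s.Nonempty) (f : κ → G) (x : G)
    (hx : ∑ j ∈ s, f j - x = x) : cc p s f x = 0 := by
  classical
  subst hp2
  rw [cc_eq]
  have hsd : ∀ t, t ⊆ s → ∑ j ∈ s \ t, f j = ∑ j ∈ s, f j - ∑ j ∈ t, f j := by
    intro t ht
    have := Finset.sum_sdiff (f := f) ht
    rw [← this]; abel
  have hone : ∀ m : ℕ, (-1 : ZMod 2) ^ m = 1 := by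
    intro m
    have : (-1 : ZMod 2) = 1 := CharTwo.neg_eq 1
    rw [this, one_pow]
  refine Finset.sum_involution (fun t _ => s \ t) ?_ ?_ ?_ ?_
  · intro t ht
    rw [hone, hone]; exact CharTwo.add_self_eq_zero 1
  · intro t ht _ heq
    rw [Finset.mem_filter, Finset.mem_powerset] at ht
    obtain ⟨j, hj⟩ := hne
    by_cases hjt : j ∈ t
    · have h2 : j ∈ s \ t := by rw [heq]; exact hjt
      exact (Finset.mem_sdiff.mp h2).2 hjt
    · have h2 : j ∈ s \ t := Finset.mem_sdiff.mpr ⟨hj, hjt⟩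
      rw [heq] at h2
      exact hjt h2
  · intro t ht
    rw [Finset.mem_filter, Finset.mem_powerset] at ht ⊢
    refine ⟨Finset.sdiff_subset, ?_⟩
    rw [hsd t ht.1, ht.2]; exact hx
  · intro t ht
    rw [Finset.mem_filter, Finset.mem_powerset] at ht
    exact Finset.sdiff_sdiff_eq_self ht.1

end

section

variable {ι : Type} [Fintype ι] [DecidableEq ι] (p : ℕ) [Fact p.Prime] (n : ι → ℕ)

theorem family_upper (e : ι → ℕ) (hn : ∀ i, n i = p ^ e i) {κ : Type} (s : Finset κ)
    (hne : s.Nonempty) (f : κ → ∀ i, ZMod (n i)) (y : ∀ i, ZMod (n i)) (h : ℕ)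
    (hpar : p = 2 ∨ Odd s.card)
    (hs : ¬ ∃ C : Finset κ, C ⊆ s ∧ C.Nonempty ∧ ∑ i ∈ C, f i = 0)
    (hsum : ∑ j ∈ s, f j = p ^ h • y) : s.card + p ^ h ≤ ∑ i, (n i - 1) + 1 := by
  by_contra hcon
  have hp : p.Prime := Fact.out
  have hpos : 0 < p ^ h := pow_pos hp.pos h
  have h0 := sum_cc_eq_zero p n e hn s f y h (by omega)
  rw [Finset.range_eq_Ico, Finset.sum_eq_sum_Ico_succ_bot hpos, zero_smul, cc_zero p s f hs] at h0
  have hsym : ∀ k ∈ Finset.Ico (0 + 1) (p ^ h), cc p s f (k • y) + cc p s f ((p ^ h - k) • y) = 0 := by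
    intro k hk
    rw [Finset.mem_Ico] at hk
    have h1 : (p ^ h - k) • y = ∑ j ∈ s, f j - k • y := by
      rw [hsum, eq_sub_iff_add_eq, ← add_smul, Nat.sub_add_cancel hk.2.le]
    rw [h1, cc_symm]
    rcases hpar with h2 | h2
    · have h3 : ((2 : ℕ) : ZMod p) = 0 := by rw [← h2]; exact ZMod.natCast_self p
      have h4 : (-1 : ZMod p) = 1 := by
        rw [neg_eq_iff_add_eq_zero]
        have : (1 : ZMod p) + 1 = ((2 : ℕ) : ZMod p) := by norm_num
        rw [this]; exact h3
      rw [h4, one_pow, one_mul]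
      have : cc p s f (k • y) + cc p s f (k • y) = ((2 : ℕ) : ZMod p) * cc p s f (k • y) := by
        push_cast; ring
      rw [this, h3, zero_mul]
    · rw [h2.neg_one_pow]; ring
  have hz : ∑ k ∈ Finset.Ico (0 + 1) (p ^ h), cc p s f (k • y) = 0 := by
    refine Finset.sum_involution (fun k _ => p ^ h - k) hsym ?_ ?_ ?_
    · intro k hk hne0 heq
      apply hne0
      rw [Finset.mem_Ico] at hk
      have h2k : p ^ h = 2 * k := by omega
      have hp2 : p = 2 := by
        have h3 : 2 ∣ p ^ h := ⟨k, h2k⟩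
        have h4 := Nat.prime_two.dvd_of_dvd_pow h3
        exact ((Nat.prime_dvd_prime_iff_eq Nat.prime_two hp).mp h4).symm
      refine cc_self p hp2 s hne f (k • y) ?_
      rw [hsum, h2k, two_mul, add_smul]; abel
    · intro k hk
      rw [Finset.mem_Ico] at hk ⊢
      omega
    · intro k hk
      rw [Finset.mem_Ico] at hk
      omega
  rw [hz, add_zero] at h0
  exact one_ne_zero h0

/-- merging two terms of a zero-sum free sequence -/
theorem ZSF.merge {G : Type*} [AddCommGroup G] {x y : G} {T : Multiset G}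
    (hT : ZSF (x ::ₘ y ::ₘ T)) : ZSF ((x + y) ::ₘ T) := by
  classical
  intro U hU hU0 hUs
  by_cases hmem : (x + y) ∈ U
  · obtain ⟨V, rfl⟩ := Multiset.exists_cons_of_mem hmem
    have hV : V ≤ T := (Multiset.cons_le_cons_iff _).mp hU
    refine hT (x ::ₘ y ::ₘ V) (Multiset.cons_le_cons _ (Multiset.cons_le_cons _ hV))
      (Multiset.cons_ne_zero) ?_
    rw [Multiset.sum_cons, Multiset.sum_cons, ← add_assoc]
    rw [Multiset.sum_cons] at hUs
    exact hUs
  · have hV : U ≤ T := (Multiset.le_cons_of_notMem hmem).mp hU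
    exact hT U (hV.trans ((Multiset.le_cons_self _ _).trans (Multiset.le_cons_self _ _))) hU0 hUs

/-- Upper bound for the length of a zero-sum free sequence of a `p`-group with sum divisible by
`p ^ h`. -/
theorem p_upper (e : ι → ℕ) (hn : ∀ i, n i = p ^ e i) (T : Multiset (∀ i, ZMod (n i)))
    (hT : ZSF T) (hT0 : T ≠ 0) (y : ∀ i, ZMod (n i)) (h : ℕ) (hsum : T.sum = p ^ h • y) :
    Multiset.card T + p ^ h ≤ ∑ i, (n i - 1) + 1 := by
  have hp : p.Prime := Fact.out
  -- the odd case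
  have key : ∀ T : Multiset (∀ i, ZMod (n i)), ZSF T → T ≠ 0 → T.sum = p ^ h • y →
      (p = 2 ∨ Odd (Multiset.card T)) → Multiset.card T + p ^ h ≤ ∑ i, (n i - 1) + 1 := by
    intro T hT hT0 hsum hpar
    obtain ⟨f, hf⟩ := exists_family T
    have hc : (Finset.univ : Finset (Fin (Multiset.card T))).card = Multiset.card T := by simp
    have h1 := family_upper p n e hn (Finset.univ : Finset (Fin (Multiset.card T))) (by
      rw [← Finset.card_pos, hc]
      exact Multiset.card_pos.mpr hT0) f y h (by rw [hc]; exact hpar) (hT.family f hf) (by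
      rw [← hsum]
      conv_rhs => rw [← hf]
      rfl)
    rw [hc] at h1
    exact h1
  by_cases hp2 : p = 2
  · exact key T hT hT0 hsum (Or.inl hp2)
  rcases Nat.even_or_odd (Multiset.card T) with hev | hodd
  swap
  · exact key T hT hT0 hsum (Or.inr hodd)
  have hpodd : Odd p := hp.odd_of_ne_two hp2
  have hcard : 2 ≤ Multiset.card T := by
    have : 0 < Multiset.card T := Multiset.card_pos.mpr hT0
    obtain ⟨c, hc⟩ := hev
    omega
  obtain ⟨x, hx⟩ := Multiset.exists_mem_of_ne_zero hT0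
  obtain ⟨T₁, rfl⟩ := Multiset.exists_cons_of_mem hx
  rw [Multiset.card_cons] at hcard
  obtain ⟨z, hz⟩ := Multiset.exists_mem_of_ne_zero
    (show T₁ ≠ 0 by intro h0; rw [h0] at hcard; simp at hcard)
  obtain ⟨T₂, rfl⟩ := Multiset.exists_cons_of_mem hz
  have h1 := key ((x + z) ::ₘ T₂) hT.merge Multiset.cons_ne_zero (by
    rw [Multiset.sum_cons, add_assoc, ← Multiset.sum_cons, ← Multiset.sum_cons]; exact hsum)
    (Or.inr (by
      rw [Multiset.card_cons] at hev ⊢
      rw [Multiset.card_cons] at hev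
      obtain ⟨c, hc⟩ := hev
      exact ⟨c - 1, by omega⟩))
  rw [Multiset.card_cons] at h1 hev ⊢
  rw [Multiset.card_cons] at hev ⊢
  -- parity
  have hE : Even (∑ i, (n i - 1)) := by
    refine Finset.even_sum _ ?_
    intro i _
    have : Odd (n i) := by rw [hn i]; exact hpodd.pow
    exact Nat.Odd.sub_odd this odd_one
  have hO : Odd (p ^ h) := hpodd.pow
  obtain ⟨a, ha⟩ := hE
  obtain ⟨b, hb⟩ := hO
  obtain ⟨c, hc⟩ := hev
  omega

end

end RelDav
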