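import Mathlib
import Pool.Agent.Helper4.RD.Lower

/-!
# Small relative Davenport constants of cosets: reduction to sequences
-/

open Finset

namespace RelDav

/-- The small `S`-relative Davenport constant: the supremum (a maximum, when `G` is finite and
`S` is nonempty) of the lengths of the sequences in `G` with sum in `S` and no nonempty zero-sum
subsequence. -/
noncomputable def smallDavenport {G : Type*} [AddCommGroup G] (S : Set G) : ℕ :=
  sSup {l | ∃ T : Multiset G, Multiset.card T = l ∧ T.sum ∈ S ∧ ZSF T}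

theorem ZSF.map {G K : Type*} [AddCommGroup G] [AddCommGroup K] (e : G ≃+ K)
    {T : Multiset G} (hT : ZSF T) : ZSF (T.map e) := by
  intro U hU hU0 hUs
  have h1 : U.map e.symm ≤ T := by
    have := Multiset.map_le_map (f := e.symm) hU
    rw [Multiset.map_map] at this
    have h2 : (⇑e.symm ∘ ⇑e) = id := by funext x; simp
    rw [h2, Multiset.map_id] at this
    exact this
  refine hT _ h1 (by rwa [Ne, Multiset.map_eq_zero]) ?_
  rw [← map_multiset_sum, hUs, map_zero]

/-- in a finite group the length of zero-sum free sequences is bounded -/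
theorem ZSF.card_le {G : Type*} [AddCommGroup G] [Finite G] {T : Multiset G} (hT : ZSF T) :
    Multiset.card T ≤ Nat.card G := by
  classical
  have hfin : Fintype G := Fintype.ofFinite G
  obtain ⟨f, hf⟩ := exists_family T
  by_contra hcon
  have hc : (Finset.univ : Finset (Fin (Multiset.card T))).card = Multiset.card T := by
    simp
  obtain ⟨A, h1, h2, _, h3⟩ := ep_finite G _ Finset.univ f (by
    rw [hc, ← Nat.card_eq_fintype_card]; omega)
  exact hT.family f hf ⟨A, h1, h2, h3⟩

theorem bdd_of_finite {G : Type*} [AddCommGroup G] [Finite G] (S : Set G) :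
    BddAbove {l | ∃ T : Multiset G, Multiset.card T = l ∧ T.sum ∈ S ∧ ZSF T} := by
  refine ⟨Nat.card G, ?_⟩
  rintro l ⟨T, rfl, _, hT⟩
  exact hT.card_le

/-- Reduction of the coset inequality to a statement about sequences. -/
theorem q1_of {G : Type*} [AddCommGroup G] [Finite G] (H : AddSubgroup G) (a : G) (β : G ⧸ H)
    (hβ : β ∈ AddSubgroup.zmultiples (a : G ⧸ H))
    (key : ∀ (T : Multiset G) (k : ℤ), ZSF T → T ≠ 0 → T.sum - k • a ∈ H →
      (T.sum : G ⧸ H) = β → ∃ T' : Multiset G, Multiset.card T ≤ Multiset.card T' ∧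
        T'.sum - a ∈ H ∧ ZSF T') :
    smallDavenport {x : G | (x : G ⧸ H) = β} ≤ smallDavenport {x : G | (x : G ⧸ H) = a} := by
  unfold smallDavenport
  by_cases hne : {l | ∃ T : Multiset G, Multiset.card T = l ∧
      T.sum ∈ {x : G | (x : G ⧸ H) = β} ∧ ZSF T}.Nonempty
  swap
  · rw [Set.not_nonempty_iff_eq_empty] at hne
    rw [hne, csSup_empty]
    exact Nat.zero_le _
  refine csSup_le hne ?_
  rintro l ⟨T, rfl, hTs, hT⟩
  suffices h : ∃ T' : Multiset G, Multiset.card T ≤ Multiset.card T' ∧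
      ((T'.sum : G) : G ⧸ H) = a ∧ ZSF T' by
    obtain ⟨T', h1, h2, h3⟩ := h
    exact h1.trans (le_csSup (bdd_of_finite _) ⟨T', rfl, h2, h3⟩)
  obtain ⟨k, hk⟩ := AddSubgroup.mem_zmultiples_iff.mp hβ
  by_cases h0 : T = 0
  · subst h0
    by_cases ha0 : a = 0
    · refine ⟨0, le_rfl, ?_, ?_⟩
      · rw [Multiset.sum_zero, ha0]
      · intro U hU hU0
        exact absurd (Multiset.le_zero.mp hU) hU0
    · refine ⟨{a}, by simp, by rw [Multiset.sum_singleton], ?_⟩
      intro U hU hU0 hUs
      rcases Multiset.le_singleton.mp hU with h | h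
      · exact hU0 h
      · rw [h, Multiset.sum_singleton] at hUs
        exact ha0 hUs
  have hbk : T.sum - k • a ∈ H := by
    have hb : ((T.sum : G) : G ⧸ H) = β := hTs
    rw [← QuotientAddGroup.eq_zero_iff, QuotientAddGroup.mk_sub, QuotientAddGroup.mk_zsmul, hb,
      hk, sub_self]
  obtain ⟨T', h1, h2, h3⟩ := key T k hT h0 hbk hTs
  refine ⟨T', h1, ?_, h3⟩
  rw [← sub_eq_zero, ← QuotientAddGroup.mk_sub, QuotientAddGroup.eq_zero_iff]
  exact h2

/-- adding a block in general position -/
theorem ZSF.add {G K : Type*} [AddCommGroup G] [AddCommGroup K] (π : G →+ K) {A B : Multiset G}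
    (hA : ZSF A) (hπA : ∀ x ∈ A, π x = 0) (hB : ∀ V ≤ B, V ≠ 0 → π V.sum ≠ 0) :
    ZSF (A + B) := by
  classical
  intro U hU hU0 hUs
  have hsplit : U - B + U ∩ B = U := Multiset.sub_add_inter U B
  have h1 : U - B ≤ A := by
    rw [Multiset.sub_le_iff_le_add]; exact hU
  have h2 : U ∩ B ≤ B := Multiset.inter_le_right
  have h5 : π (U - B).sum = 0 := by
    rw [map_multiset_sum]
    refine Multiset.sum_eq_zero ?_
    intro z hz
    rw [Multiset.mem_map] at hz
    obtain ⟨x, hx, rfl⟩ := hz
    exact hπA x (Multiset.mem_of_le h1 hx)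
  have h6 : π (U ∩ B).sum = 0 := by
    have h5' : π (U - B).sum + π (U ∩ B).sum = 0 := by
      rw [← map_add, ← Multiset.sum_add, hsplit, hUs, map_zero]
    rwa [h5, zero_add] at h5'
  have h7 : U ∩ B = 0 := by
    by_contra h
    exact hB _ h2 h h6
  have h8 : U = U - B := by
    conv_lhs => rw [← hsplit, h7, add_zero]
  rw [h8] at hU0 hUs
  exact hA _ h1 hU0 hUs

/-- General lower bound construction. -/
theorem lower_gen {G : Type*} [AddCommGroup G] {k : ℕ} (hk : 0 < k) (π : G →+ ZMod k)
    {A : Multiset G} (hA : ZSF A) (hπA : ∀ x ∈ A, π x = 0)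
    (hsurj : ∀ u : ZMod k, ∃ r, π r = u) (g : G) (hg : π g ≠ 0) :
    ∃ T : Multiset G, ZSF T ∧ T.sum = g ∧
      Multiset.card T = Multiset.card A + (k - Nat.gcd (π g).val k) := by
  classical
  have : NeZero k := ⟨hk.ne'⟩
  obtain ⟨d, hd, w, hw, hx⟩ := (π g).eq_unit_mul_divisor
  have hgcd := gcd_val_of_unit_mul hk (π g) w d hd hw hx
  rw [hgcd]
  have hd0 : 0 < d := Nat.pos_of_dvd_of_pos hd hk
  have hdk : d < k := by
    rcases lt_or_eq_of_le (Nat.le_of_dvd hk hd) with h | h
    · exact h
    · exfalso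
      apply hg
      rw [hx, h, ZMod.natCast_self, mul_zero]
  obtain ⟨r, hr⟩ := hsurj (-w)
  have hℓ : ((k - d : ℕ) : ZMod k) * (-w) = π g := by
    rw [Nat.cast_sub hdk.le, ZMod.natCast_self, hx]; ring
  obtain ⟨l, hl⟩ : ∃ l, k - d = l + 1 := ⟨k - d - 1, by omega⟩
  have hπA0 : π A.sum = 0 := by
    rw [map_multiset_sum]
    refine Multiset.sum_eq_zero ?_
    intro z hz
    rw [Multiset.mem_map] at hz
    obtain ⟨x, hx, rfl⟩ := hz
    exact hπA x hx
  have hπr1 : π (g - A.sum - l • r) = -w := by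
    rw [map_sub, map_sub, map_nsmul, hπA0, hr, sub_zero, ← hℓ, hl]
    rw [nsmul_eq_mul]
    push_cast
    ring
  refine ⟨A + ((g - A.sum - l • r) ::ₘ Multiset.replicate l r), ?_, ?_, ?_⟩
  · refine ZSF.add π hA hπA ?_
    intro V hV hV0 hVs
    have h3 : ∀ x ∈ V, π x = -w := by
      intro x hx
      have hxB := Multiset.mem_of_le hV hx
      rw [Multiset.mem_cons] at hxB
      rcases hxB with h | h
      · rw [h]; exact hπr1
      · rw [Multiset.eq_of_mem_replicate h]; exact hr
    have h4 : π V.sum = (Multiset.card V) • (-w) := by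
      rw [map_multiset_sum, Multiset.map_congr rfl h3]
      simp
    rw [h4, nsmul_eq_mul] at hVs
    have h5 := hw.neg.mul_left_eq_zero.mp hVs
    rw [ZMod.natCast_eq_zero_iff] at h5
    have h6 := Multiset.card_le_card hV
    rw [Multiset.card_cons, Multiset.card_replicate] at h6
    have h7 : Multiset.card V = 0 := Nat.eq_zero_of_dvd_of_lt h5 (by omega)
    exact hV0 (Multiset.card_eq_zero.mp h7)
  · rw [Multiset.sum_add, Multiset.sum_cons, Multiset.sum_replicate]
    abel
  · rw [Multiset.card_add, Multiset.card_cons, Multiset.card_replicate, hl]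

end RelDav
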