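import Mathlib
import Pool.Agent.Helper4.RD.PUpper
import Pool.Agent.Helper4.RD.Transfer

/-!
# Lower bound for `p`-groups and the coset inequality
-/

open Finset

namespace RelDav

section

variable {ι : Type} [Fintype ι] [DecidableEq ι] (n : ι → ℕ)

/-- the standard zero-sum free sequence -/
def stdSeq (J : Finset ι) : Multiset (∀ i, ZMod (n i)) :=
  ∑ i ∈ J, Multiset.replicate (n i - 1) (Pi.single i 1)

omit [Fintype ι] in
theorem stdSeq_card (J : Finset ι) : Multiset.card (stdSeq n J) = ∑ i ∈ J, (n i - 1) := by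
  unfold stdSeq
  rw [Multiset.card_sum]
  simp

omit [Fintype ι] in
theorem stdSeq_mem (J : Finset ι) (x : ∀ i, ZMod (n i)) (hx : x ∈ stdSeq n J) (j : ι)
    (hj : j ∉ J) : x j = 0 := by
  unfold stdSeq at hx
  rw [Multiset.mem_sum] at hx
  obtain ⟨i, hi, hx⟩ := hx
  rw [Multiset.eq_of_mem_replicate hx]
  exact Pi.single_eq_of_ne (by rintro rfl; exact hj hi) _

omit [Fintype ι] in
theorem stdSeq_zsf (hn : ∀ i, 0 < n i) (J : Finset ι) : ZSF (stdSeq n J) := by
  induction J using Finset.induction_on with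
  | empty =>
    intro U hU hU0
    unfold stdSeq at hU
    rw [Finset.sum_empty] at hU
    exact absurd (Multiset.le_zero.mp hU) hU0
  | insert i J hi ih =>
    have : stdSeq n (insert i J) = stdSeq n J + Multiset.replicate (n i - 1) (Pi.single i 1) := by
      unfold stdSeq
      rw [Finset.sum_insert hi, add_comm]
    rw [this]
    refine ZSF.add (Pi.evalAddMonoidHom (fun i => ZMod (n i)) i) ih
      (fun x hx => stdSeq_mem n J x hx i hi) ?_
    intro V hV hV0 hVs
    obtain ⟨k, hk, rfl⟩ := Multiset.le_replicate_iff.mp hV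
    have hk0 : 0 < k := by
      rcases Nat.eq_zero_or_pos k with h | h
      · exfalso; apply hV0; rw [h]; rfl
      · exact h
    have h1 : (k : ZMod (n i)) = 0 := by
      have := hVs
      rw [Multiset.sum_replicate, map_nsmul] at this
      change k • (Pi.single i (1 : ZMod (n i)) : ∀ i, ZMod (n i)) i = 0 at this
      rw [Pi.single_eq_same, nsmul_eq_mul, mul_one] at this
      exact this
    rw [ZMod.natCast_eq_zero_iff] at h1
    have := Nat.le_of_dvd hk0 h1
    have := hn i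
    omega

/-- Lower bound in terms of one coordinate. -/
theorem lower_coord (hn : ∀ i, 0 < n i) (g : ∀ i, ZMod (n i)) (j : ι) (hj : g j ≠ 0) :
    ∃ T : Multiset (∀ i, ZMod (n i)), ZSF T ∧ T.sum = g ∧
      ∑ i, (n i - 1) + 1 ≤ Multiset.card T + Nat.gcd (g j).val (n j) := by
  obtain ⟨T, h1, h2, h3⟩ := lower_gen (hn j) (Pi.evalAddMonoidHom (fun i => ZMod (n i)) j)
    (stdSeq_zsf n hn (Finset.univ.erase j))
    (fun x hx => stdSeq_mem n _ x hx j (Finset.notMem_erase j _))
    (fun u => ⟨Pi.single j u, by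
      change (Pi.single j u : ∀ i, ZMod (n i)) j = u
      exact Pi.single_eq_same (M := fun i => ZMod (n i)) j u⟩) g hj
  refine ⟨T, h1, h2, ?_⟩
  rw [h3, stdSeq_card]
  change _ ≤ _ + (n j - Nat.gcd (g j).val (n j)) + _
  have h4 : Nat.gcd (g j).val (n j) ≤ n j := Nat.le_of_dvd (hn j) (Nat.gcd_dvd_right _ _)
  have h5 := Finset.sum_erase_add (f := fun i => n i - 1) Finset.univ (Finset.mem_univ j)
  have h6 := hn j
  omega

theorem p_lower (p : ℕ) [Fact p.Prime] (e : ι → ℕ) (hn : ∀ i, n i = p ^ e i)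
    (g : ∀ i, ZMod (n i)) (h : ℕ) (hg : ¬ ∃ y : ∀ i, ZMod (n i), g = p ^ (h + 1) • y) :
    ∃ T : Multiset (∀ i, ZMod (n i)), ZSF T ∧ T.sum = g ∧
      ∑ i, (n i - 1) + 1 ≤ Multiset.card T + p ^ h := by
  have hp : p.Prime := Fact.out
  have hn0 : ∀ i, 0 < n i := fun i => by rw [hn i]; exact pow_pos hp.pos _
  have hex : ∃ j, ¬ p ^ (h + 1) ∣ (g j).val := by
    by_contra hcon
    push Not at hcon
    apply hg
    choose c hc using hcon
    refine ⟨fun i => (c i : ZMod (n i)), ?_⟩
    funext i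
    have : NeZero (n i) := ⟨(hn0 i).ne'⟩
    rw [Pi.smul_apply, nsmul_eq_mul, ← Nat.cast_mul, ← hc i, ZMod.natCast_zmod_val]
  obtain ⟨j, hj⟩ := hex
  have hj0 : g j ≠ 0 := by
    intro h0
    apply hj
    rw [h0, ZMod.val_zero]
    exact dvd_zero _
  obtain ⟨T, h1, h2, h3⟩ := lower_coord n hn0 g j hj0
  refine ⟨T, h1, h2, ?_⟩
  obtain ⟨t, _, ht⟩ := (Nat.dvd_prime_pow hp).mp (show Nat.gcd (g j).val (n j) ∣ p ^ e j by
    rw [← hn j]; exact Nat.gcd_dvd_right _ _)
  have htle : t ≤ h := by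
    by_contra hcon
    apply hj
    have h4 : p ^ t ∣ (g j).val := by rw [← ht]; exact Nat.gcd_dvd_left _ _
    exact (pow_dvd_pow p (by omega)).trans h4
  have h5 : p ^ t ≤ p ^ h := Nat.pow_le_pow_right hp.pos htle
  rw [ht] at h3
  omega

end

/-- **Q1 for finite abelian `p`-groups**, in terms of sequences. -/
theorem q1_p {G : Type*} [AddCommGroup G] {ι : Type} [Fintype ι] (p : ℕ) [Fact p.Prime]
    (n : ι → ℕ) (e : ι → ℕ) (hn : ∀ i, n i = p ^ e i) (E : G ≃+ ∀ i, ZMod (n i))
    (H : AddSubgroup G) (a : G) (T : Multiset G) (k : ℤ) (hT : ZSF T) (hT0 : T ≠ 0)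
    (hb : T.sum - k • a ∈ H) : ∃ T' : Multiset G, Multiset.card T ≤ Multiset.card T' ∧
        T'.sum - a ∈ H ∧ ZSF T' := by
  classical
  have hp : p.Prime := Fact.out
  have hb0 : T.sum ≠ 0 := hT T le_rfl hT0
  -- the height of the sum
  have hex : ∃ h : ℕ, ¬ ∃ y : G, T.sum = p ^ (h + 1) • y := by
    by_contra hcon
    push Not at hcon
    obtain ⟨y, hy⟩ := hcon (∑ i, e i)
    apply hb0
    rw [hy]
    apply E.injective
    rw [map_nsmul, map_zero]
    funext i
    rw [Pi.smul_apply, Pi.zero_apply, nsmul_eq_mul]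
    have h1 : ((p ^ (∑ i, e i + 1) : ℕ) : ZMod (n i)) = 0 := by
      rw [ZMod.natCast_eq_zero_iff, hn i]
      refine pow_dvd_pow p ?_
      have : e i ≤ ∑ i, e i := Finset.single_le_sum (fun _ _ => Nat.zero_le _) (Finset.mem_univ i)
      omega
    rw [h1, zero_mul]
  -- minimal such h
  have hmin := Nat.find_spec hex
  have hmin' := fun m hm => Nat.find_min hex (m := m) hm
  set h := Nat.find hex with hh
  have hdiv : ∃ y : G, T.sum = p ^ h • y := by
    rcases Nat.eq_zero_or_pos h with h0 | h0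
    · exact ⟨T.sum, by rw [h0, pow_zero, one_smul]⟩
    · have := hmin' (h - 1) (by omega)
      rw [not_not, Nat.sub_add_cancel h0] at this
      exact this
  obtain ⟨y, hy⟩ := hdiv
  have hup := p_upper p n e hn (T.map E) (hT.map E) (by rwa [Ne, Multiset.map_eq_zero]) (E y) h (by
    rw [← map_multiset_sum, hy, map_nsmul])
  rw [Multiset.card_map] at hup
  -- an element of `a + H` not divisible by `p ^ (h + 1)`
  have ha' : ∃ a' : G, a' - a ∈ H ∧ ¬ ∃ z : G, a' = p ^ (h + 1) • z := by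
    by_contra hcon
    push Not at hcon
    apply hmin
    obtain ⟨z, hz⟩ := hcon a (by rw [sub_self]; exact H.zero_mem)
    obtain ⟨w, hw⟩ := hcon (a + (T.sum - k • a)) (by rw [add_sub_cancel_left]; exact hb)
    refine ⟨w - z + k • z, ?_⟩
    have h1 : T.sum = (a + (T.sum - k • a)) - a + k • a := by abel
    rw [h1, hw, hz, smul_add, smul_sub]
    congr 1
    rw [smul_comm]
  obtain ⟨a', ha'H, ha'⟩ := ha'
  obtain ⟨T', h1, h2, h3⟩ := p_lower n p e hn (E a') h (by
    rintro ⟨z, hz⟩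
    apply ha'
    refine ⟨E.symm z, ?_⟩
    apply E.injective
    rw [map_nsmul, AddEquiv.apply_symm_apply]
    exact hz)
  refine ⟨T'.map E.symm, ?_, ?_, h1.map E.symm⟩
  · rw [Multiset.card_map]; omega
  · rw [← map_multiset_sum, h2, AddEquiv.symm_apply_apply]
    exact ha'H

end RelDav
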