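import Mathlib
import Pool.Agent.Helper4.RD.Transfer

/-!
# Groups whose exponent divides a product of two primes

Soft arguments: rotation of minimal zero-sum sequences, splitting a term with an element outside
the generated subgroup, and transitivity of the automorphism group on elements of a given type.
-/

open Finset

namespace RelDav

section

variable {G : Type*} [AddCommGroup G]

/-- Every term of a zero-sum free sequence is the sum of a zero-sum free sequence of the same
length. -/
theorem ZSF.rotate {T : Multiset G} (hT : ZSF T) {x : G} (hx : x ∈ T) :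
    ∃ T' : Multiset G, ZSF T' ∧ T'.sum = x ∧ Multiset.card T' = Multiset.card T := by
  classical
  obtain ⟨T₁, rfl⟩ := Multiset.exists_cons_of_mem hx
  refine ⟨(x ::ₘ T₁).sum ::ₘ T₁.map (fun y => -y), ?_, ?_, ?_⟩
  · intro U hU hU0 hUs
    have hmapneg : ∀ V ≤ T₁.map (fun y => -y), ∃ W ≤ T₁, W.map (fun y => -y) = V ∧
        V.sum = -W.sum := by
      intro V hV
      have h1 : V.map (fun y => -y) ≤ T₁ := by
        have := Multiset.map_le_map (f := fun y : G => -y) hV
        rw [Multiset.map_map] at this
        have h2 : ((fun y : G => -y) ∘ fun y => -y) = id := by funext z; simp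
        rwa [h2, Multiset.map_id] at this
      refine ⟨_, h1, ?_, ?_⟩
      · rw [Multiset.map_map]
        have h2 : ((fun y : G => -y) ∘ fun y => -y) = id := by funext z; simp
        rw [h2, Multiset.map_id]
      · rw [Multiset.sum_map_neg', neg_neg]
    by_cases hmem : (x ::ₘ T₁).sum ∈ U
    · obtain ⟨V, rfl⟩ := Multiset.exists_cons_of_mem hmem
      have hV := (Multiset.cons_le_cons_iff _).mp hU
      obtain ⟨W, hW, _, hWs⟩ := hmapneg V hV
      rw [Multiset.sum_cons, hWs] at hUs
      -- the complement of `W`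
      have hle : W ≤ x ::ₘ T₁ := hW.trans (Multiset.le_cons_self _ _)
      have h1 : (x ::ₘ T₁ - W) + W = x ::ₘ T₁ := Multiset.sub_add_cancel hle
      have h2 : (x ::ₘ T₁ - W).sum = 0 := by
        have h3 : (x ::ₘ T₁ - W).sum + W.sum = (x ::ₘ T₁).sum := by
          rw [← Multiset.sum_add, h1]
        have h4 : (x ::ₘ T₁ - W).sum = (x ::ₘ T₁).sum + -W.sum := by rw [← h3]; abel
        rw [h4, hUs]
      refine hT (x ::ₘ T₁ - W) (Multiset.sub_le_self _ _) ?_ h2
      intro h0
      have h5 := congrArg Multiset.card h1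
      rw [h0, zero_add, Multiset.card_cons] at h5
      have h6 := Multiset.card_le_card hW
      omega
    · have hV : U ≤ T₁.map (fun y => -y) := (Multiset.le_cons_of_notMem hmem).mp hU
      obtain ⟨W, hW, hWm, hWs⟩ := hmapneg U hV
      rw [hWs, neg_eq_zero] at hUs
      refine hT W (hW.trans (Multiset.le_cons_self _ _)) ?_ hUs
      rintro rfl
      exact hU0 (by rw [← hWm]; rfl)
  · rw [Multiset.sum_cons, Multiset.sum_cons, Multiset.sum_map_neg']
    abel
  · rw [Multiset.card_cons, Multiset.card_cons, Multiset.card_map]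

/-- Splitting with an element outside a subgroup containing the sequence. -/
theorem ZSF.split {T : Multiset G} (hT : ZSF T) (K : AddSubgroup G) (hK : ∀ x ∈ T, x ∈ K)
    {a : G} (ha : a ∉ K) :
    ∃ T' : Multiset G, ZSF T' ∧ T'.sum = a ∧ Multiset.card T' = Multiset.card T + 1 := by
  have hTs : T.sum ∈ K := AddSubgroup.multiset_sum_mem K T hK
  refine ⟨T + {a - T.sum}, ?_, ?_, ?_⟩
  · refine ZSF.add (QuotientAddGroup.mk' K) hT ?_ ?_
    · intro x hx
      rw [QuotientAddGroup.mk'_apply, QuotientAddGroup.eq_zero_iff]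
      exact hK x hx
    · intro V hV hV0 hVs
      rcases Multiset.le_singleton.mp hV with h | h
      · exact hV0 h
      · rw [h, Multiset.sum_singleton, QuotientAddGroup.mk'_apply,
          QuotientAddGroup.eq_zero_iff] at hVs
        apply ha
        have := K.add_mem hVs hTs
        rwa [sub_add_cancel] at this
  · rw [Multiset.sum_add, Multiset.sum_singleton]
    abel
  · rw [Multiset.card_add, Multiset.card_singleton]

end

/-- In a vector space the linear automorphisms act transitively on nonzero vectors. -/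
theorem exists_linearEquiv_apply {K V : Type*} [Field K] [AddCommGroup V] [Module K V] (x y : V)
    (hx : x ≠ 0) (hy : y ≠ 0) : ∃ θ : V ≃ₗ[K] V, θ x = y := by
  by_cases hli : LinearIndependent K ![x, y]
  · have hli' : LinearIndepOn K ![x, y] Set.univ := linearIndepOn_univ_iff.mpr hli
    obtain ⟨f, hf⟩ := Module.exists_dual_forall_apply_eq_one hli'
    have hfx : f x = 1 := hf 0 (Set.mem_univ _)
    have hfy : f y = 1 := hf 1 (Set.mem_univ _)
    refine ⟨LinearEquiv.ofLinearMap (LinearMap.id + f.smulRight (y - x))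
      (LinearMap.id - f.smulRight (y - x)) ?_ ?_, ?_⟩
    · ext z
      simp [hfx, hfy]
    · ext z
      simp [hfx, hfy]
    · simp [hfx]
  · rw [LinearIndependent.pair_iff' hx] at hli
    push Not at hli
    obtain ⟨c, hc⟩ := hli
    have hc0 : c ≠ 0 := by
      rintro rfl
      rw [zero_smul] at hc
      exact hy hc.symm
    exact ⟨LinearEquiv.smulOfNeZero K V c hc0, hc⟩

/-- In a group of prime exponent the automorphisms act transitively on nonzero elements. -/
theorem exists_addEquiv_apply {V : Type*} [AddCommGroup V] (p : ℕ) [Fact p.Prime]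
    (hV : ∀ x : V, p • x = 0) (x y : V) (hxy : x = 0 ↔ y = 0) : ∃ θ : V ≃+ V, θ x = y := by
  by_cases hx : x = 0
  · exact ⟨AddEquiv.refl V, by rw [hxy.mp hx, hx]; rfl⟩
  · let _ : Module (ZMod p) V := AddCommGroup.zmodModule hV
    obtain ⟨θ, hθ⟩ := exists_linearEquiv_apply (K := ZMod p) x y hx (fun h => hx (hxy.mpr h))
    exact ⟨θ.toAddEquiv, hθ⟩

section

variable {G : Type*} [AddCommGroup G] (p q : ℕ) [Fact p.Prime] [Fact q.Prime]

/-- If `pq` annihilates `G`, `p ≠ q`, the orbits of the automorphism group are determined by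
whether `p x = 0` and whether `q x = 0`. -/
theorem exists_aut (hpq : p ≠ q) (hG : ∀ x : G, (p * q) • x = 0) (x y : G)
    (h1 : p • x = 0 ↔ p • y = 0) (h2 : q • x = 0 ↔ q • y = 0) : ∃ θ : G ≃+ G, θ x = y := by
  have hp : p.Prime := Fact.out
  have hq : q.Prime := Fact.out
  have hcop : Nat.Coprime p q := (Nat.coprime_primes hp hq).mpr hpq
  -- `u p + v q = 1`
  obtain ⟨u, v, huv⟩ : ∃ u v : ℤ, u * p + v * q = 1 := by
    have := Nat.gcd_eq_gcd_ab p q
    rw [hcop.gcd_eq_one] at this
    refine ⟨Nat.gcdA p q, Nat.gcdB p q, ?_⟩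
    have h : (1 : ℤ) = p * Nat.gcdA p q + q * Nat.gcdB p q := by exact_mod_cast this
    rw [h]; ring
  -- the two components
  let V : AddSubgroup G := (nsmulAddMonoidHom p).ker
  let W : AddSubgroup G := (nsmulAddMonoidHom q).ker
  have hV : ∀ z : V, p • z = 0 := fun z => Subtype.ext z.2
  have hW : ∀ z : W, q • z = 0 := fun z => Subtype.ext z.2
  have hmemV : ∀ z : G, (v * q : ℤ) • z ∈ V := by
    intro z
    change p • ((v * q : ℤ) • z) = 0
    rw [← natCast_zsmul, smul_smul, show ((p : ℤ) * (v * q)) = v * ((p * q : ℕ) : ℤ) by push_cast; ring,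
      mul_smul, natCast_zsmul, hG, smul_zero]
  have hmemW : ∀ z : G, (u * p : ℤ) • z ∈ W := by
    intro z
    change q • ((u * p : ℤ) • z) = 0
    rw [← natCast_zsmul, smul_smul, show ((q : ℤ) * (u * p)) = u * ((p * q : ℕ) : ℤ) by push_cast; ring,
      mul_smul, natCast_zsmul, hG, smul_zero]
  have hVz : ∀ z : G, z ∈ V → (u * p : ℤ) • z = 0 := by
    intro z hz
    rw [mul_smul, natCast_zsmul, show p • z = 0 from hz, smul_zero]
  have hWz : ∀ z : G, z ∈ W → (v * q : ℤ) • z = 0 := by
    intro z hz
    rw [mul_smul, natCast_zsmul, show q • z = 0 from hz, smul_zero]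
  have hsum : ∀ z : G, (v * q : ℤ) • z + (u * p : ℤ) • z = z := by
    intro z
    rw [← add_smul, add_comm, huv, one_smul]
  let E : G ≃+ V × W :=
    { toFun := fun z => (⟨_, hmemV z⟩, ⟨_, hmemW z⟩)
      invFun := fun w => (w.1 : G) + w.2
      left_inv := fun z => hsum z
      right_inv := by
        rintro ⟨⟨a, ha⟩, ⟨b, hb⟩⟩
        have ha2 : (v * q : ℤ) • a = a := by
          have := hsum a
          rwa [hVz a ha, add_zero] at this
        have hb2 : (u * p : ℤ) • b = b := by
          have := hsum b
          rwa [hWz b hb, zero_add] at this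
        refine Prod.ext (Subtype.ext ?_) (Subtype.ext ?_)
        · change (v * q : ℤ) • (a + b) = a
          rw [smul_add, ha2, hWz b hb, add_zero]
        · change (u * p : ℤ) • (a + b) = b
          rw [smul_add, hb2, hVz a ha, zero_add]
      map_add' := by
        intro a b
        refine Prod.ext (Subtype.ext ?_) (Subtype.ext ?_)
        · exact smul_add _ _ _
        · exact smul_add _ _ _ }
  have hE1 : ∀ z : G, (E z).1 = 0 ↔ q • z = 0 := by
    intro z
    constructor
    · intro h
      have h3 : (v * q : ℤ) • z = 0 := congrArg Subtype.val h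
      have h4 : (u * p : ℤ) • z = z := by
        have := hsum z
        rwa [h3, zero_add] at this
      have h5 := hmemW z
      rw [h4] at h5
      exact h5
    · intro h
      exact Subtype.ext (hWz z h)
  have hE2 : ∀ z : G, (E z).2 = 0 ↔ p • z = 0 := by
    intro z
    constructor
    · intro h
      have h3 : (u * p : ℤ) • z = 0 := congrArg Subtype.val h
      have h4 : (v * q : ℤ) • z = z := by
        have := hsum z
        rwa [h3, add_zero] at this
      have h5 := hmemV z
      rw [h4] at h5
      exact h5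
    · intro h
      exact Subtype.ext (hVz z h)
  obtain ⟨θ₁, hθ₁⟩ := exists_addEquiv_apply p hV (E x).1 (E y).1 (by rw [hE1, hE1]; exact h2)
  obtain ⟨θ₂, hθ₂⟩ := exists_addEquiv_apply q hW (E x).2 (E y).2 (by rw [hE2, hE2]; exact h1)
  refine ⟨(E.trans (AddEquiv.prodCongr θ₁ θ₂)).trans E.symm, ?_⟩
  rw [AddEquiv.trans_apply, AddEquiv.trans_apply]
  have : (AddEquiv.prodCongr θ₁ θ₂) (E x) = E y := Prod.ext hθ₁ hθ₂
  rw [this, AddEquiv.symm_apply_apply]

end

end RelDav
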